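import Pool.Agent.Lib.MP_e4b521_co.Avg

set_option autoImplicit false

namespace Pool.Agent.OG

/-- binomial coefficient, in a form that evaluates fast -/
def ch (n k : ℕ) : ℕ := n.descFactorial k / k.factorial

theorem ch_eq (n k : ℕ) : n.choose k = ch n k := Nat.choose_eq_descFactorial_div_factorial n k

/-- B, in a form that evaluates fast -/
def Bf (n j d : ℕ) : ℕ := 2 * ch (n - 1 - d) (j + 1) + d * ch (n - 1 - d) j

theorem B_eq (n j d : ℕ) : B n j d = Bf n j d := by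
  unfold B Bf
  rw [ch_eq, ch_eq]

/-- weighted sum of the two averaged costs -/
def wt (n l m d : ℕ) : ℕ := l * Bf n 3 d + m * Bf n 3 (n - 1 - d)

/-- maximum over an interval -/
def mx (f : ℕ → ℕ) (lo len : ℕ) : ℕ := (List.range' lo len).foldr (fun d x => max (f d) x) 0

/-- the check with given bounds -/
def chk' (n a b lo hi p q l m M E F : ℕ) : Bool :=
  (List.range' 1 (n - 2)).all (fun d =>
    decide (wt n l m d ≤ M + (if d < lo then E else 0) + if hi < d then F else 0)) &&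
  decide (n * M + p * E + q * F + 8 * (l + m) * ch n 4 < 2 * (l * a + m * b) * ch n 4)

/-- the check -/
def chk (n a b lo hi p q l m : ℕ) : Bool :=
  chk' n a b lo hi p q l m (mx (wt n l m) lo (hi + 1 - lo))
    (mx (wt n l m) 1 (lo - 1) - mx (wt n l m) lo (hi + 1 - lo))
    (mx (wt n l m) (hi + 1) (n - 2 - hi) - mx (wt n l m) lo (hi + 1 - lo))

/-- one case of the table -/
def row (n a p q : ℕ) : Bool :=
  chk n a (2 * n / 3 + 4 - a) (2 * n / 3 + 4 - a - 2 + p) (n + 1 - a - q) p q 4 5 ||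
  chk n a (2 * n / 3 + 4 - a) (2 * n / 3 + 4 - a - 2 + p) (n + 1 - a - q) p q 1 1

theorem table : ∀ n < 32, 12 ≤ n → ∀ a < 16, 2 * a ≤ n → 2 * n / 3 + 4 - a ≤ a →
    (row n a 0 0 && row n a 0 1 && row n a 1 0 && row n a 1 1) = true := by
  decide +kernel

theorem table2 : ∀ n < 60, 32 ≤ n → ∀ a < 30, 2 * a ≤ n → 2 * n / 3 + 4 - a ≤ a →
    12 * ch n 6 + (n * Bf n 5 (a - 2) + Bf n 5 0) < 2 * (2 * n / 3 + 4 - a) * ch n 6 := by
  decide +kernel

theorem choose_ratio {r n : ℕ} (h : r ≤ n) (k : ℕ) : r.choose k * n ^ k ≤ n.choose k * r ^ k := by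
  have key : r.descFactorial k * n ^ k ≤ n.descFactorial k * r ^ k := by
    induction k with
    | zero => simp
    | succ k ih =>
      rw [Nat.descFactorial_succ, Nat.descFactorial_succ, pow_succ, pow_succ]
      have h1 : (r - k) * n ≤ (n - k) * r := by
        rw [Nat.sub_mul, Nat.sub_mul, mul_comm n r]
        exact Nat.sub_le_sub_left (Nat.mul_le_mul_left _ h) _
      calc (r - k) * r.descFactorial k * (n ^ k * n)
          = (r - k) * n * (r.descFactorial k * n ^ k) := by ring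
        _ ≤ (n - k) * r * (n.descFactorial k * r ^ k) := Nat.mul_le_mul h1 ih
        _ = (n - k) * n.descFactorial k * (r ^ k * r) := by ring
  rw [Nat.descFactorial_eq_factorial_mul_choose, Nat.descFactorial_eq_factorial_mul_choose,
    mul_assoc, mul_assoc] at key
  exact Nat.le_of_mul_le_mul_left key k.factorial_pos

theorem chord {x : ℝ} (h1 : 1 / 2 ≤ x) (h2 : x ≤ 2 / 3) :
    x ^ 5 ≤ 1 / 32 + 61 / 100 * (x - 1 / 2) := by
  have h0 : 0 ≤ x := by linarith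
  have e : x ^ 5 - 1 / 32 =
      (x - 1 / 2) * (x ^ 4 + x ^ 3 / 2 + x ^ 2 / 4 + x / 8 + 1 / 16) := by ring
  have a4 : x ^ 4 ≤ (2 / 3) ^ 4 := pow_le_pow_left₀ h0 h2 4
  have a3 : x ^ 3 ≤ (2 / 3) ^ 3 := pow_le_pow_left₀ h0 h2 3
  have a2 : x ^ 2 ≤ (2 / 3) ^ 2 := pow_le_pow_left₀ h0 h2 2
  have : x ^ 4 + x ^ 3 / 2 + x ^ 2 / 4 + x / 8 + 1 / 16 ≤ 61 / 100 := by
    norm_num at a4 a3 a2
    linarith
  nlinarith

theorem large {n a b : ℕ} (hn : 60 ≤ n) (h1 : 2 * a ≤ n) (h2 : b ≤ a)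
    (h3 : a + b = 2 * n / 3 + 4) :
    12 * n.choose 6 + (n * B n 5 (a - 2) + B n 5 0) < 2 * b * n.choose 6 := by
  unfold B
  obtain ⟨r, hr⟩ : ∃ r, r = n + 1 - a := ⟨_, rfl⟩
  rw [show n - 1 - (a - 2) = r by omega, Nat.sub_zero, zero_mul, add_zero]
  have c1 : (n - 1).choose (5 + 1) ≤ n.choose 6 := Nat.choose_le_choose _ (Nat.sub_le _ _)
  have c2 := Nat.choose_succ_right_eq r 5
  have c3 := Nat.choose_succ_right_eq n 5
  have c4 := choose_ratio (show r ≤ n by omega) 5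
  have c5 : 0 < n.choose 5 := Nat.choose_pos (by omega)
  obtain ⟨m, hm⟩ : ∃ m, m = a - 2 := ⟨_, rfl⟩
  rw [← hm]
  have d1 : (m : ℝ) = n - 1 - r := by
    have : m + r + 1 = n := by omega
    rw [← this]; push_cast; ring
  have d2 : (n : ℝ) + 2 ≤ 2 * r := by exact_mod_cast (show n + 2 ≤ 2 * r by omega)
  have d3 : 3 * (r : ℝ) + 2 ≤ 2 * n := by exact_mod_cast (show 3 * r + 2 ≤ 2 * n by omega)
  have d4 : 3 * (r : ℝ) + 7 ≤ 3 * b + n := by exact_mod_cast (show 3 * r + 7 ≤ 3 * b + n by omega)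
  have d5 : (60 : ℝ) ≤ n := by exact_mod_cast hn
  have c1' : (((n - 1).choose (5 + 1) : ℕ) : ℝ) ≤ n.choose 6 := by exact_mod_cast c1
  have c2' : (r.choose (5 + 1) : ℝ) * 6 = r.choose 5 * (r - 5) := by
    have : ((r - 5 : ℕ) : ℝ) = r - 5 := by rw [Nat.cast_sub (by omega)]; norm_num
    rw [← this]; exact_mod_cast c2
  have c3' : (n.choose 6 : ℝ) * 6 = n.choose 5 * (n - 5) := by
    have : ((n - 5 : ℕ) : ℝ) = n - 5 := by rw [Nat.cast_sub (by omega)]; norm_num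
    rw [← this]; exact_mod_cast c3
  have c4' : (r.choose 5 : ℝ) * n ^ 5 ≤ n.choose 5 * r ^ 5 := by exact_mod_cast c4
  have c5' : (0 : ℝ) < n.choose 5 := by exact_mod_cast c5
  have hn0 : (0 : ℝ) < n := by linarith
  have e1 : (r.choose 5 : ℝ) * n ≤ n.choose 5 * (n / 32 + 61 / 100 * (r - n / 2)) := by
    have x1 : (1 : ℝ) / 2 ≤ r / n := by rw [le_div_iff₀ hn0]; linarith
    have x2 : (r : ℝ) / n ≤ 2 / 3 := by rw [div_le_iff₀ hn0]; linarith
    have x3 := chord x1 x2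
    have x4 : (r.choose 5 : ℝ) ≤ n.choose 5 * (r / n) ^ 5 := by
      rw [div_pow, ← mul_div_assoc, le_div_iff₀ (by positivity)]; exact c4'
    have x5 : (r.choose 5 : ℝ) ≤ n.choose 5 * (1 / 32 + 61 / 100 * (r / n - 1 / 2)) :=
      x4.trans (mul_le_mul_of_nonneg_left x3 c5'.le)
    calc (r.choose 5 : ℝ) * n ≤ n.choose 5 * (1 / 32 + 61 / 100 * (r / n - 1 / 2)) * n :=
          mul_le_mul_of_nonneg_right x5 hn0.le
      _ = _ := by field_simp
  have e2 : ((n : ℝ) / 32 + 61 / 100 * (r - n / 2)) * (6 * n - 4 * r - 16) + 14 * (n - 5) <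
      2 * b * (n - 5) := by
    have y1 : 2 * ((3 * (r : ℝ) + 7 - n) / 3) * (n - 5) ≤ 2 * b * (n - 5) :=
      mul_le_mul_of_nonneg_right (by linarith) (by linarith)
    nlinarith [sq_nonneg ((r : ℝ) - 56 / 100 * n), mul_nonneg (sub_nonneg.2 d5) hn0.le]
  have e3 : (r.choose 5 : ℝ) * n * (6 * n - 4 * r - 16) ≤
      n.choose 5 * (n / 32 + 61 / 100 * (r - n / 2)) * (6 * n - 4 * r - 16) :=
    mul_le_mul_of_nonneg_right e1 (by linarith)
  have e4 := mul_lt_mul_of_pos_left e2 c5'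
  have goal : (12 : ℝ) * n.choose 6 + (n * (2 * r.choose (5 + 1) + m * r.choose 5) +
      2 * ((n - 1).choose (5 + 1) : ℕ)) < 2 * b * n.choose 6 := by
    have f1 : (r.choose (5 + 1) : ℝ) = r.choose 5 * (r - 5) / 6 := by linarith
    have f2 : (n.choose 6 : ℝ) = n.choose 5 * (n - 5) / 6 := by linarith
    rw [f1, d1]
    rw [f2] at c1' ⊢
    nlinarith
  exact_mod_cast goal

end Pool.Agent.OG
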