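import Pool.Agent.Lib.MP_e4b521_co.Bounds

set_option autoImplicit false

namespace Pool.Agent.OG

open Finset
open scoped Classical

variable {V : Type} [DecidableEq V] [Fintype V]

omit [DecidableEq V] in
theorem card_eq_deg (H : SimpleGraph V) (v : V) (inst : DecidablePred fun s => H.Adj s v) :
    (univ.filter fun s => H.Adj s v).card = deg H v := by
  unfold deg
  congr

theorem deg_compl (H : SimpleGraph V) (v : V) : deg H v + deg Hᶜ v + 1 = Fintype.card V := by
  have h1 := card_filter_add_card_filter_not (s := (univ : Finset V)) (fun s => H.Adj s v)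
  have h2 : (univ.filter fun s => ¬ H.Adj s v) = insert v (univ.filter fun s => Hᶜ.Adj s v) := by
    ext s
    by_cases h : s = v
    · simp [h]
    · simp [h]
  rw [h2, card_insert_of_notMem (by simp), card_univ, card_eq_deg, card_eq_deg] at h1
  omega

theorem cost_pair (H : SimpleGraph V) {u w : V} (h : u ≠ w) :
    cost H {u, w} ≤ 4 + deg Hᶜ u + deg Hᶜ w := by
  rw [cost_eq, card_pair h]
  unfold deg
  rw [card_filter, card_filter, add_assoc, ← sum_add_distrib]
  refine Nat.add_le_add le_rfl (le_trans (sum_le_sum fun v hv => ?_)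
    (sum_le_sum_of_subset (subset_univ (univ \ {u, w}))))
  have hv' := (mem_sdiff.1 hv).2
  rw [mem_insert, mem_singleton, not_or] at hv'
  rw [card_filter, sum_pair h]
  have e1 : Hᶜ.Adj v u ↔ ¬ H.Adj u v := by simp [hv'.1, H.adj_comm]
  have e2 : Hᶜ.Adj v w ↔ ¬ H.Adj w v := by simp [hv'.2, H.adj_comm]
  simp only [e1, e2]
  by_cases a1 : H.Adj u v <;> by_cases a2 : H.Adj w v <;> simp [a1, a2]

/-- number of (j+1)-sets weighted by the cost of a vertex of degree d -/
def B (n j d : ℕ) : ℕ := 2 * (n - 1 - d).choose (j + 1) + d * (n - 1 - d).choose j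

theorem vert_sum (H : SimpleGraph V) (j : ℕ) (v : V) :
    ∑ S ∈ powersetCard (j + 1) (univ : Finset V),
      (if v ∈ S then 0 else 2 - (S.filter fun s => H.Adj s v).card) ≤
        B (Fintype.card V) j (deg H v) := by
  set Z := univ.filter fun s => Hᶜ.Adj s v with hZ
  have hZc : Z.card = Fintype.card V - 1 - deg H v := by
    have := deg_compl H v
    rw [hZ, card_eq_deg]
    omega
  have hZm : ∀ s, s ∈ Z ↔ s ≠ v ∧ ¬ H.Adj s v := fun s => by simp [hZ]
  set P1 := (univ.filter fun s => H.Adj s v).biUnion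
    fun w => (powersetCard j Z).image (insert w) with hP1
  have h1 : P1.card ≤ deg H v * Z.card.choose j := by
    refine card_biUnion_le.trans ?_
    refine (sum_le_sum fun w _ => card_image_le).trans ?_
    simp [deg]
  have h2 : ∀ S ∈ powersetCard (j + 1) (univ : Finset V),
      (if v ∈ S then 0 else 2 - (S.filter fun s => H.Adj s v).card) ≤
        2 * (if S ∈ powersetCard (j + 1) Z then 1 else 0) + if S ∈ P1 then 1 else 0 := by
    intro S hS
    have hc := (mem_powersetCard.1 hS).2
    by_cases hv : v ∈ S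
    · rw [if_pos hv]; exact Nat.zero_le _
    · rw [if_neg hv]
      rcases Nat.lt_trichotomy (S.filter fun s => H.Adj s v).card 1 with h | h | h
      · have e : (S.filter fun s => H.Adj s v) = ∅ := card_eq_zero.1 (by omega)
        have : S ∈ powersetCard (j + 1) Z := mem_powersetCard.2 ⟨fun s hs => (hZm s).2
          ⟨fun c => hv (c ▸ hs), filter_eq_empty_iff.1 e hs⟩, hc⟩
        rw [if_pos this]
        omega
      · obtain ⟨w, hw⟩ := card_eq_one.1 h
        have hw' : w ∈ S.filter fun s => H.Adj s v := by rw [hw]; exact mem_singleton_self _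
        rw [mem_filter] at hw'
        have : S ∈ P1 := by
          refine mem_biUnion.2 ⟨w, mem_filter.2 ⟨mem_univ _, hw'.2⟩,
            mem_image.2 ⟨S.erase w, mem_powersetCard.2 ⟨fun s hs => (hZm s).2 ?_, ?_⟩,
              insert_erase hw'.1⟩⟩
          · rw [mem_erase] at hs
            refine ⟨fun c => hv (c ▸ hs.2), fun c => hs.1 ?_⟩
            have : s ∈ S.filter fun s => H.Adj s v := mem_filter.2 ⟨hs.2, c⟩
            rwa [hw, mem_singleton] at this
          · rw [card_erase_of_mem hw'.1, hc]; rfl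
        rw [if_pos this]
        omega
      · omega
  refine (sum_le_sum h2).trans ?_
  rw [sum_add_distrib, ← mul_sum, ← card_filter, ← card_filter]
  unfold B
  rw [← hZc]
  refine Nat.add_le_add (Nat.mul_le_mul_left _ ?_) (le_trans ?_ h1)
  · rw [← card_powersetCard]
    exact card_le_card fun S hS => (mem_filter.1 hS).2
  · exact card_le_card fun S hS => (mem_filter.1 hS).2

theorem avg {H : SimpleGraph V} {a : ℕ} (h : ∀ S, 2 * a ≤ cost H S) (j : ℕ) :
    2 * a * (Fintype.card V).choose (j + 1) ≤ 2 * (j + 1) * (Fintype.card V).choose (j + 1) +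
      ∑ v, B (Fintype.card V) j (deg H v) := by
  have h1 : ∀ S ∈ powersetCard (j + 1) (univ : Finset V), 2 * a ≤ 2 * (j + 1) +
      ∑ v, (if v ∈ S then 0 else 2 - (S.filter fun s => H.Adj s v).card) := by
    intro S hS
    refine (h S).trans ?_
    rw [cost_eq, (mem_powersetCard.1 hS).2]
    refine Nat.add_le_add le_rfl (le_trans (sum_le_sum fun v hv => ?_)
      (sum_le_sum_of_subset (subset_univ (univ \ S))))
    rw [if_neg (mem_sdiff.1 hv).2]
  have h2 := sum_le_sum h1
  rw [sum_add_distrib, sum_comm, sum_const, sum_const, card_powersetCard, card_univ,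
    smul_eq_mul, smul_eq_mul] at h2
  have h3 := sum_le_sum fun v (_ : v ∈ (univ : Finset V)) => vert_sum H j v
  nlinarith

omit [DecidableEq V] in
theorem sum_le_three (f d : V → ℕ) (lo hi p q M E F : ℕ)
    (hp : (univ.filter fun v => d v < lo).card ≤ p) (hq : (univ.filter fun v => hi < d v).card ≤ q)
    (h : ∀ v, f v ≤ M + (if d v < lo then E else 0) + if hi < d v then F else 0) :
    ∑ v, f v ≤ Fintype.card V * M + p * E + q * F := by
  refine (sum_le_sum fun v _ => h v).trans ?_
  rw [sum_add_distrib, sum_add_distrib, sum_const, card_univ, smul_eq_mul, ← sum_filter,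
    ← sum_filter, sum_const, sum_const, smul_eq_mul, smul_eq_mul]
  exact Nat.add_le_add (Nat.add_le_add le_rfl (Nat.mul_le_mul_right _ hp))
    (Nat.mul_le_mul_right _ hq)

theorem B_succ (n j d : ℕ) : B n (j + 1) (d + 1) ≤ B n (j + 1) d := by
  unfold B
  rcases Nat.eq_zero_or_pos (n - 1 - d) with h | h
  · rw [h, show n - 1 - (d + 1) = 0 by omega]
    simp
  · obtain ⟨r, hr⟩ : ∃ r, n - 1 - d = r + 1 := ⟨n - 1 - d - 1, by omega⟩
    rw [hr, show n - 1 - (d + 1) = r by omega, Nat.choose_succ_succ' r (j + 1),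
      Nat.choose_succ_succ' r j]
    nlinarith [Nat.zero_le (d * r.choose j), Nat.zero_le (r.choose (j + 1))]

theorem B_anti (n j : ℕ) : Antitone (B n (j + 1)) := antitone_nat_of_succ_le (B_succ n j)

end Pool.Agent.OG
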