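import Pool.Agent.Lib.MP_e4b521_co.Cyc

set_option autoImplicit false

namespace Pool.Agent.OG

open Finset
open scoped Classical

variable {V : Type} [DecidableEq V] [Fintype V]

/-- twice the cost of the set S in the pairing bound -/
noncomputable def cost (H : SimpleGraph V) (S : Finset V) : ℕ :=
  ∑ v, if v ∈ S then 2 else 2 - (S.filter fun s => H.Adj s v).card

/-- degree -/
noncomputable def deg (H : SimpleGraph V) (v : V) : ℕ := (univ.filter fun s => H.Adj s v).card

theorem cost_eq (H : SimpleGraph V) (S : Finset V) :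
    cost H S = 2 * S.card + ∑ v ∈ univ \ S, (2 - (S.filter fun s => H.Adj s v).card) := by
  unfold cost
  rw [← sum_sdiff (subset_univ S), add_comm]
  congr 1
  · rw [sum_congr rfl fun v hv => if_pos hv]
    simp [mul_comm]
  · exact sum_congr rfl fun v hv => if_neg (mem_sdiff.1 hv).2

theorem win_cost (H : SimpleGraph V) (S : Finset V) : Win H (cost H S / 2) := by
  have h := cost_eq H S
  refine win_cover (S := S) (R := ∅) (disjoint_empty_right _) (good_empty H)
    (K := cost H S / 2 - S.card) ?_ ?_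
  · rw [union_empty]; omega
  · rw [card_empty]; omega

theorem win_half {H : SimpleGraph V} (h0 : ∀ v, ∃ w, H.Adj v w)
    (h1 : ∀ u w, deg H u ≤ 1 → deg H w ≤ 1 → u = w) : Win H (Fintype.card V / 2) := by
  let N : Finset V → Finset V := fun X => univ.filter fun s => ∃ v ∈ X, H.Adj s v
  have hN : ∀ X s, s ∈ N X ↔ ∃ v ∈ X, H.Adj s v := fun X s => by simp [N]
  obtain ⟨I, hI, hmax⟩ := exists_max_image
    (univ.filter fun X : Finset V => ∀ u ∈ X, ∀ v ∈ X, ¬ H.Adj u v)
    (fun X => (X.card : ℤ) - (N X).card) ⟨∅, by simp⟩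
  have hI' := (mem_filter.1 hI).2
  have hSI : (N I).card ≤ I.card := by
    have := hmax ∅ (by simp)
    have e : N ∅ = ∅ := by simp [N]
    rw [e] at this
    simp only [card_empty] at this
    omega
  set R := univ \ (I ∪ N I) with hR
  have hRm : ∀ v, v ∈ R ↔ v ∉ I ∧ v ∉ N I := fun v => by
    simp only [hR, mem_sdiff, mem_univ, true_and, mem_union, not_or]
  have hall : ∀ X : Finset V, X ⊆ R → X.card ≤ (N X ∩ R).card := by
    intro X hX
    have hY : ((X \ N X) ∪ I) ∈ univ.filter
        fun X : Finset V => ∀ u ∈ X, ∀ v ∈ X, ¬ H.Adj u v := by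
      refine mem_filter.2 ⟨mem_univ _, fun u hu v hv huv => ?_⟩
      rcases mem_union.1 hu with hu | hu <;> rcases mem_union.1 hv with hv | hv
      · exact (mem_sdiff.1 hu).2 ((hN _ _).2 ⟨v, (mem_sdiff.1 hv).1, huv⟩)
      · exact ((hRm u).1 (hX (mem_sdiff.1 hu).1)).2 ((hN _ _).2 ⟨v, hv, huv⟩)
      · exact ((hRm v).1 (hX (mem_sdiff.1 hv).1)).2 ((hN _ _).2 ⟨u, hu, huv.symm⟩)
      · exact hI' u hu v hv huv
    have h2 := hmax _ hY
    have h3 : ((X \ N X) ∪ I).card = (X \ N X).card + I.card :=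
      card_union_of_disjoint (disjoint_left.2 fun u hu c =>
        ((hRm u).1 (hX (mem_sdiff.1 hu).1)).1 c)
    have h4 : N ((X \ N X) ∪ I) ⊆ N I ∪ (N (X \ N X) ∩ R) := by
      intro s hs
      obtain ⟨v, hv, hsv⟩ := (hN _ _).1 hs
      by_cases hs' : s ∈ N I
      · exact mem_union_left _ hs'
      · rcases mem_union.1 hv with hv | hv
        · refine mem_union_right _ (mem_inter.2 ⟨(hN _ _).2 ⟨v, hv, hsv⟩, (hRm s).2 ⟨fun c => ?_, hs'⟩⟩)
          exact ((hRm v).1 (hX (mem_sdiff.1 hv).1)).2 ((hN _ _).2 ⟨s, c, hsv.symm⟩)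
        · exact absurd ((hN _ _).2 ⟨v, hv, hsv⟩) hs'
    have h5 := (card_le_card h4).trans (card_union_le _ _)
    have h6 : (X ∩ N X) ∪ (N (X \ N X) ∩ R) ⊆ N X ∩ R := by
      intro s hs
      rcases mem_union.1 hs with hs | hs
      · exact mem_inter.2 ⟨(mem_inter.1 hs).2, hX (mem_inter.1 hs).1⟩
      · obtain ⟨v, hv, hsv⟩ := (hN _ _).1 (mem_inter.1 hs).1
        exact mem_inter.2 ⟨(hN _ _).2 ⟨v, (mem_sdiff.1 hv).1, hsv⟩, (mem_inter.1 hs).2⟩
    have h7 : Disjoint (X ∩ N X) (N (X \ N X) ∩ R) := by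
      refine disjoint_left.2 fun s hs c => ?_
      obtain ⟨v, hv, hsv⟩ := (hN _ _).1 (mem_inter.1 c).1
      exact (mem_sdiff.1 hv).2 ((hN _ _).2 ⟨s, (mem_inter.1 hs).1, hsv.symm⟩)
    have h8 := card_le_card h6
    rw [card_union_of_disjoint h7] at h8
    have h9 := card_sdiff_add_card_inter X (N X)
    omega
  obtain ⟨τ, hτ, hτ'⟩ := (all_card_le_biUnion_card_iff_exists_injective
      (fun v : V => if v ∈ R then R.filter (fun s => H.Adj s v) else {v})).1 (by
    intro X
    have h2 := hall (X ∩ R) inter_subset_right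
    have h3 : (X \ R) ∪ (N (X ∩ R) ∩ R) ⊆
        X.biUnion fun v : V => if v ∈ R then R.filter (fun s => H.Adj s v) else {v} := by
      intro s hs
      rcases mem_union.1 hs with hs | hs
      · exact mem_biUnion.2 ⟨s, (mem_sdiff.1 hs).1, by simp [(mem_sdiff.1 hs).2]⟩
      · obtain ⟨v, hv, hsv⟩ := (hN _ _).1 (mem_inter.1 hs).1
        refine mem_biUnion.2 ⟨v, (mem_inter.1 hv).1, ?_⟩
        rw [if_pos (mem_inter.1 hv).2]
        exact mem_filter.2 ⟨(mem_inter.1 hs).2, hsv⟩
    have h4 := card_le_card h3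
    rw [card_union_of_disjoint (disjoint_left.2 fun s hs c =>
      (mem_sdiff.1 hs).2 (mem_inter.1 c).2)] at h4
    have h5 := card_sdiff_add_card_inter X R
    omega)
  have hτR : ∀ v ∈ R, τ v ∈ R ∧ H.Adj (τ v) v := fun v hv => by
    have := hτ' v
    rw [if_pos hv] at this
    exact mem_filter.1 this
  have hg : Good H R := good_of_inj hτ R (fun v hv => (hτR v hv).1) fun v hv => (hτR v hv).2.symm
  have hdis : Disjoint I (N I) := disjoint_left.2 fun s hs c => by
    obtain ⟨v, hv, hsv⟩ := (hN _ _).1 c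
    exact hI' s hs v hv hsv
  refine win_cover (S := N I) (R := R) (disjoint_left.2 fun s hs c => ((hRm s).1 c).2 hs) hg
    (K := 0) ?_ ?_
  · have e : ∀ v ∈ univ \ (N I ∪ R), 2 - ((N I).filter fun s => H.Adj s v).card ≤
        if deg H v ≤ 1 then 1 else 0 := by
      intro v hv
      have hvI : v ∈ I := by
        by_contra c
        have := (mem_sdiff.1 hv).2
        rw [mem_union, not_or] at this
        exact this.2 ((hRm v).2 ⟨c, this.1⟩)
      have e1 : ((N I).filter fun s => H.Adj s v) = univ.filter fun s => H.Adj s v := by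
        ext s
        simp only [mem_filter, mem_univ, true_and, and_iff_right_iff_imp]
        exact fun h => (hN _ _).2 ⟨v, hvI, h⟩
      obtain ⟨w, hw⟩ := h0 v
      have e2 : 0 < deg H v := card_pos.2 ⟨w, mem_filter.2 ⟨mem_univ _, hw.symm⟩⟩
      rw [e1]
      change 2 - deg H v ≤ _
      split_ifs <;> omega
    refine (sum_le_sum e).trans ?_
    rw [← card_filter]
    exact card_le_one.2 fun u hu w hw => h1 u w (mem_filter.1 hu).2 (mem_filter.1 hw).2
  · have e1 : R.card = Fintype.card V - (I ∪ N I).card := by rw [hR, card_univ_sdiff]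
    have e2 := card_le_univ (I ∪ N I)
    rw [card_union_of_disjoint hdis] at e1 e2
    omega

theorem win_two_thirds {H : SimpleGraph V} (h0 : ∀ v, ∃ w, H.Adj v w) :
    Win H (2 * Fintype.card V / 3) := by
  obtain ⟨K, ⟨hK, k0⟩, hmin⟩ := (wellFounded_lt (α := SimpleGraph V)).has_min
    {K | K ≤ H ∧ ∀ v, ∃ w, K.Adj v w} ⟨H, le_rfl, h0⟩
  let leaf : V → Prop := fun v => ∀ w w', K.Adj v w → K.Adj v w' → w = w'
  have hedge : ∀ u v, K.Adj u v → leaf u ∨ leaf v := by
    intro u v huv
    by_contra c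
    rw [not_or] at c
    have other : ∀ a b, ¬ leaf a → ∃ w, K.Adj a w ∧ w ≠ b := by
      intro a b ha
      by_contra d
      push Not at d
      exact ha fun w w' h h' => (d w h).trans (d w' h').symm
    refine hmin (K.deleteEdges {s(u, v)}) ⟨(K.deleteEdges_le _).trans hK, fun x => ?_⟩
      (lt_of_le_of_ne (K.deleteEdges_le _) fun e => ?_)
    · by_cases hu : x = u
      · obtain ⟨w, h1, h2⟩ := other u v c.1
        refine ⟨w, ?_⟩
        rw [hu]
        simp [h1, h2, huv.ne]
      · by_cases hv : x = v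
        · obtain ⟨w, h1, h2⟩ := other v u c.2
          refine ⟨w, ?_⟩
          rw [hv]
          simp [h1, h2, huv.ne.symm]
        · obtain ⟨w, h1⟩ := k0 x
          exact ⟨w, by simp [h1, hu, hv]⟩
    · have : (K.deleteEdges {s(u, v)}).Adj u v := by rw [e]; exact huv
      simp at this
  choose p hp using k0
  set S := univ.filter fun v => ¬ leaf v with hS
  set R := univ.filter fun v => leaf v ∧ leaf (p v) with hR
  have hSm : ∀ v, v ∈ S ↔ ¬ leaf v := fun v => by simp [hS]
  have hRm : ∀ v, v ∈ R ↔ leaf v ∧ leaf (p v) := fun v => by simp [hR]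
  have hW : ∀ v, v ∈ univ \ (S ∪ R) ↔ leaf v ∧ ¬ leaf (p v) := fun v => by
    rw [mem_sdiff, mem_union, hSm, hRm]
    simp only [mem_univ, true_and]
    tauto
  have hpp : ∀ v, leaf (p v) → p (p v) = v := fun v h => h _ _ (hp _) (hp v).symm
  have hg : Good H R := by
    refine good_of_map (σ := p) (fun u hu v hv h => ?_) (fun v hv => ?_) fun v _ => hK (hp v)
    · rw [← hpp u ((hRm u).1 hu).2, h, hpp v ((hRm v).1 hv).2]
    · have := (hRm v).1 hv
      exact (hRm _).2 ⟨this.2, by rw [hpp v this.2]; exact this.1⟩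
  have hdis : Disjoint S R := disjoint_left.2 fun s hs c => (hSm s).1 hs ((hRm s).1 c).1
  have hc : ∑ v ∈ univ \ (S ∪ R), (2 - (S.filter fun s => H.Adj s v).card) ≤
      (univ \ (S ∪ R)).card := by
    rw [card_eq_sum_ones]
    refine sum_le_sum fun v hv => ?_
    have : 0 < (S.filter fun s => H.Adj s v).card :=
      card_pos.2 ⟨p v, mem_filter.2 ⟨(hSm _).2 ((hW v).1 hv).2, (hK (hp v)).symm⟩⟩
    omega
  have h2 : 2 * S.card ≤ (univ \ (S ∪ R)).card := by
    rw [card_eq_sum_card_fiberwise (f := p) (t := S)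
      fun v hv => (hSm _).2 ((hW v).1 hv).2, card_eq_sum_ones S, mul_sum]
    refine sum_le_sum fun s hs => ?_
    have hs' := (hSm s).1 hs
    have key : ∀ w, K.Adj s w → w ∈ (univ \ (S ∪ R)).filter fun a => p a = s := by
      intro w hw
      have l := (hedge s w hw).resolve_left hs'
      have e : p w = s := l _ _ (hp w) hw.symm
      exact mem_filter.2 ⟨(hW w).2 ⟨l, by rw [e]; exact hs'⟩, e⟩
    simp only [leaf] at hs'
    push Not at hs'
    obtain ⟨w, w', a1, a2, a3⟩ := hs'
    exact one_lt_card.2 ⟨w, key w a1, w', key w' a2, a3⟩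
  have e1 : (univ \ (S ∪ R)).card = Fintype.card V - (S ∪ R).card := card_univ_sdiff _
  have e2 := card_le_univ (S ∪ R)
  rw [card_union_of_disjoint hdis] at e1 e2
  exact win_cover hdis hg (K := (univ \ (S ∪ R)).card / 2) (by omega) (by omega)

end Pool.Agent.OG
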