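import Mathlib

set_option autoImplicit false

namespace Pool.Agent.OG

open Finset
open scoped Classical

/-- every set of indices below 10 has cost at least 10 in the relation y -/
def Dear (y : ℕ → ℕ → Prop) : Prop :=
  ∀ T : Finset ℕ, T ⊆ range 10 →
    10 ≤ ∑ i ∈ range 10, if i ∈ T then 2 else 2 - (T.filter fun s => y s i).card

/-- the hypotheses on a graph on the indices below 10 -/
structure Hyp (x : ℕ → ℕ → Prop) : Prop where
  symm : ∀ i j, x i j → x j i
  red : Dear x
  blue : Dear fun s i => ¬ x s i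
  lex : ∀ i j, i < j → j + 1 < 10 → (∀ t < i, (x t j ↔ x t (j + 1))) → x i (j + 1) → x i j

/-- one bit -/
def bt (R p : ℕ) : ℕ := Nat.mod (Nat.shiftRight R p) 2

theorem bt_eq (R p : ℕ) : bt R p = (R.testBit p).toNat := by
  rw [Nat.toNat_testBit, ← Nat.shiftRight_eq_div_pow]
  rfl

/-- the bits of R are pairs of the relation y -/
def Inv (y : ℕ → ℕ → Prop) (R : ℕ) : Prop :=
  ∀ s i, i < 16 → R.testBit (16 * s + i) = true → s < 10 ∧ y s i

/-- no graph as in Hyp extends the partial colouring -/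
def Bad (R B : ℕ) : Prop := ∀ x, Hyp x → Inv x R → Inv (fun s i => ¬ x s i) B → False

/-- set the two bits of an edge -/
def st (R i j : ℕ) : ℕ :=
  Nat.lor R (Nat.lor (Nat.pow 2 (Nat.add (Nat.mul 16 i) j)) (Nat.pow 2 (Nat.add (Nat.mul 16 j) i)))

theorem inv_st {y : ℕ → ℕ → Prop} {R i j : ℕ} (h : Inv y R) (hi : i < 10) (hj : j < 10)
    (h1 : y i j) (h2 : y j i) : Inv y (st R i j) := by
  intro s t ht hb
  change (R ||| (2 ^ (16 * i + j) ||| 2 ^ (16 * j + i))).testBit (16 * s + t) = true at hb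
  simp only [Nat.testBit_or, Nat.testBit_two_pow, Bool.or_eq_true, decide_eq_true_eq] at hb
  rcases hb with hb | hb | hb
  · exact h s t ht hb
  · obtain ⟨rfl, rfl⟩ : s = i ∧ t = j := by omega
    exact ⟨hi, h1⟩
  · obtain ⟨rfl, rfl⟩ : s = j ∧ t = i := by omega
    exact ⟨hj, h2⟩

/-- evaluate the argument first -/
noncomputable def force (n : ℕ) (f : ℕ → ℕ) : ℕ := Nat.rec (f 0) (fun k _ => f (Nat.succ k)) n

theorem force_eq (n : ℕ) (f : ℕ → ℕ) : force n f = f n := by cases n <;> rfl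

/-- cost of one index -/
def tm (A B C D a b c d i : ℕ) : ℕ :=
  cond (Nat.beq i a || Nat.beq i b || Nat.beq i c || Nat.beq i d) 2
    (Nat.sub 2 (Nat.add (Nat.add (bt A i) (bt B i)) (Nat.add (bt C i) (bt D i))))

/-- cost of a set of at most four indices -/
def sm (f : ℕ → ℕ) : ℕ :=
  Nat.add (Nat.add (Nat.add (Nat.add (f 0) (f 1)) (Nat.add (f 2) (f 3)))
    (Nat.add (Nat.add (f 4) (f 5)) (Nat.add (f 6) (f 7)))) (Nat.add (f 8) (f 9))

theorem sm_eq (f : ℕ → ℕ) : sm f = ∑ i ∈ range 10, f i := by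
  simp only [sum_range_succ, sum_range_zero, sm, Nat.add_eq]
  omega

/-- the set a, b, c, d is cheap; returns r if so -/
noncomputable def leaf (R a b c d r : ℕ) : ℕ :=
  force (Nat.shiftRight R (Nat.mul 16 a)) fun A => force (Nat.shiftRight R (Nat.mul 16 b)) fun B =>
  force (Nat.shiftRight R (Nat.mul 16 c)) fun C => force (Nat.shiftRight R (Nat.mul 16 d)) fun D =>
  cond (Nat.blt a b && Nat.blt b c && Nat.blt c d && Nat.ble (sm (tm A B C D a b c d)) 9) r 0

theorem leaf_sound {y : ℕ → ℕ → Prop} {R a b c d r : ℕ} (hy : Dear y) (h : Inv y R) :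
    leaf R a b c d r = 0 := by
  unfold leaf
  simp only [force_eq]
  rw [Bool.cond_eq_ite, if_neg]
  intro hc
  simp only [Bool.and_eq_true, Nat.blt_eq, Nat.ble_eq] at hc
  obtain ⟨⟨⟨h1, h2⟩, h3⟩, h4⟩ := hc
  have h5 := hy (({a, b, c, d} : Finset ℕ).filter (· < 10)) fun s hs =>
    mem_range.2 (mem_filter.1 hs).2
  rw [sm_eq] at h4
  refine absurd (h5.trans (sum_le_sum fun i hi => ?_) |>.trans h4) (by omega)
  have hi' := mem_range.1 hi
  have key : ∀ s, bt (Nat.shiftRight R (Nat.mul 16 s)) i ≤ if s < 10 ∧ y s i then 1 else 0 := by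
    intro s
    rw [bt_eq]
    change ((R >>> (16 * s)).testBit i).toNat ≤ _
    rw [Nat.testBit_shiftRight]
    cases hb : R.testBit (16 * s + i)
    · exact Nat.zero_le _
    · rw [if_pos (h s i (by omega) hb)]; exact le_rfl
  unfold tm
  rw [Bool.cond_eq_ite]
  simp only [Bool.or_eq_true, Nat.beq_eq, Nat.add_eq, Nat.sub_eq]
  by_cases hm : ((i = a ∨ i = b) ∨ i = c) ∨ i = d
  · rw [if_pos hm]
    split_ifs <;> omega
  · have n1 : i ∉ ({a, b, c, d} : Finset ℕ).filter (· < 10) := by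
      intro e
      have := (mem_filter.1 e).1
      simp only [mem_insert, mem_singleton] at this
      omega
    have n2 : a ∉ ({b, c, d} : Finset ℕ) := by
      simp only [mem_insert, mem_singleton]; omega
    have n3 : b ∉ ({c, d} : Finset ℕ) := by
      simp only [mem_insert, mem_singleton]; omega
    have n4 : c ∉ ({d} : Finset ℕ) := by
      simp only [mem_singleton]; omega
    rw [if_neg hm, if_neg n1, filter_filter, card_filter, sum_insert n2, sum_insert n3,
      sum_insert n4, sum_singleton]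
    have := key a
    have := key b
    have := key c
    have := key d
    omega

/-- a leaf of the certificate -/
noncomputable def lf (L : List (ℕ × ℕ)) (R B op r : ℕ) : ℕ :=
  cond (Nat.beq op 2) (cond (L.any fun p => Nat.beq p.1 R && Nat.beq p.2 B) r 0)
    (force (Nat.mod op 16) fun a => force (Nat.mod (Nat.div op 16) 16) fun b =>
      force (Nat.mod (Nat.div op 256) 16) fun c => force (Nat.mod (Nat.div op 4096) 16) fun d =>
        leaf (cond (Nat.ble 65536 op) B R) a b c d r)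

theorem lf_sound {L : List (ℕ × ℕ)} (hL : ∀ p ∈ L, Bad p.1 p.2) {R B op r : ℕ}
    (h : lf L R B op r ≠ 0) : Bad R B := by
  intro x hx h1 h2
  unfold lf at h
  simp only [force_eq] at h
  cases e : Nat.beq op 2
  · rw [e, cond_false] at h
    cases e' : Nat.ble 65536 op
    · rw [e', cond_false] at h
      exact h (leaf_sound hx.red h1)
    · rw [e', cond_true] at h
      exact h (leaf_sound hx.blue h2)
  · rw [e, cond_true, Bool.cond_eq_ite] at h
    split_ifs at h with e'
    · obtain ⟨p, hp, e''⟩ := List.any_eq_true.1 e'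
      simp only [Bool.and_eq_true, Nat.beq_eq] at e''
      exact hL p hp x hx (e''.1 ▸ h1) (e''.2 ▸ h2)
    · exact h rfl

/-- the symmetry test -/
def symOK (R B i j : ℕ) : Bool :=
  decide (i + 1 < j) && B.testBit (16 * i + (j - 1)) && (List.range i).all fun t =>
    (R.testBit (16 * t + (j - 1)) && R.testBit (16 * t + j)) ||
    (B.testBit (16 * t + (j - 1)) && B.testBit (16 * t + j))

theorem sym_sound {x : ℕ → ℕ → Prop} (hx : Hyp x) {R B i j : ℕ} (hj : j < 10) (h1 : Inv x R)
    (h2 : Inv (fun s i => ¬ x s i) B) (h : symOK R B i j = true) : ¬ x i j := by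
  unfold symOK at h
  simp only [Bool.and_eq_true, decide_eq_true_eq, List.all_eq_true, List.mem_range,
    Bool.or_eq_true] at h
  obtain ⟨⟨a1, a2⟩, a3⟩ := h
  obtain ⟨k, rfl⟩ : ∃ k, j = k + 1 := ⟨j - 1, by omega⟩
  rw [Nat.add_sub_cancel] at a2 a3
  refine fun c => (h2 i k (by omega) a2).2 (hx.lex i k (by omega) hj (fun t ht => ?_) c)
  rcases a3 t ht with ⟨b1, b2⟩ | ⟨b1, b2⟩
  · exact iff_of_true (h1 t k (by omega) b1).2 (h1 t (k + 1) (by omega) b2).2
  · exact iff_of_false (h2 t k (by omega) b1).2 (h2 t (k + 1) (by omega) b2).2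

/-- one step of the checker -/
noncomputable def step (L : List (ℕ × ℕ)) (i j : ℕ) (ih : ℕ → ℕ → ℕ → ℕ) (R B c : ℕ) : ℕ :=
  force (Nat.mod c 131072) fun op => force (Nat.div c 131072) fun r =>
    cond (Nat.beq op 0)
      (force (st R i j) fun R' => force (ih R' B r) fun r' =>
        cond (Nat.beq r' 0) 0 (force (st B i j) fun B' => ih R B' r'))
      (cond (Nat.beq op 1) (cond (symOK R B i j) (force (st B i j) fun B' => ih R B' r) 0)
        (lf L R B op r))

/-- the checker: reads a search tree from the digits of c -/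
noncomputable def go (L : List (ℕ × ℕ)) (es : List (ℕ × ℕ)) : ℕ → ℕ → ℕ → ℕ :=
  List.rec (fun R B c => lf L R B (Nat.mod c 131072) (Nat.div c 131072))
    (fun e _ ih => step L e.1 e.2 ih) es

theorem go_sound {L : List (ℕ × ℕ)} (hL : ∀ p ∈ L, Bad p.1 p.2) (es : List (ℕ × ℕ)) :
    (∀ e ∈ es, e.1 < 10 ∧ e.2 < 10) → ∀ R B c, go L es R B c ≠ 0 → Bad R B := by
  induction es with
  | nil => exact fun _ R B c h => lf_sound hL h
  | cons e es ih =>
    intro he R B c h
    have ih' := ih fun e' h' => he e' (List.mem_cons_of_mem _ h')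
    obtain ⟨hi, hj⟩ := he e List.mem_cons_self
    change step L e.1 e.2 (go L es) R B c ≠ 0 at h
    unfold step at h
    simp only [force_eq, Bool.cond_eq_ite, Nat.beq_eq] at h
    intro x hx h1 h2
    have blue : ∀ r, go L es R (st B e.1 e.2) r ≠ 0 → ¬ x e.1 e.2 → False := fun r hr c =>
      ih' _ _ _ hr x hx h1 (inv_st h2 hi hj c fun d => c (hx.symm _ _ d))
    split_ifs at h with c1 c2 c3 c4
    · exact h rfl
    · by_cases c : x e.1 e.2
      · exact ih' _ _ _ c2 x hx (inv_st h1 hi hj c (hx.symm _ _ c)) h2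
      · exact blue _ h c
    · exact blue _ h (sym_sound hx hj h1 h2 c4)
    · exact h rfl
    · exact lf_sound hL h x hx h1 h2

/-- the pairs in row order -/
def edges : List (ℕ × ℕ) := [(0,1),(0,2),(0,3),(0,4),(0,5),(0,6),(0,7),(0,8),(0,9),
  (1,2),(1,3),(1,4),(1,5),(1,6),(1,7),(1,8),(1,9),(2,3),(2,4),(2,5),(2,6),(2,7),(2,8),(2,9),
  (3,4),(3,5),(3,6),(3,7),(3,8),(3,9),(4,5),(4,6),(4,7),(4,8),(4,9),(5,6),(5,7),(5,8),(5,9),
  (6,7),(6,8),(6,9),(7,8),(7,9),(8,9)]

theorem bad_of_go {L : List (ℕ × ℕ)} (hL : ∀ p ∈ L, Bad p.1 p.2) (t R B c : ℕ)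
    (h : Nat.beq (go L (edges.drop t) R B c) 1 = true) : Bad R B :=
  go_sound hL _ (fun e he => (by decide : ∀ e ∈ edges, e.1 < 10 ∧ e.2 < 10) e
    (List.mem_of_mem_drop he)) R B c (by rw [Nat.eq_of_beq_eq_true h]; exact Nat.one_ne_zero)

theorem bad_nil (t R B c : ℕ) (h : Nat.beq (go [] (edges.drop t) R B c) 1 = true) : Bad R B :=
  bad_of_go (by simp) t R B c h

end Pool.Agent.OG
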