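import Pool.Agent.Lib.MP_e4b521_co.Arith

set_option autoImplicit false

namespace Pool.Agent.OG

open Finset
open scoped Classical

variable {V : Type} [DecidableEq V] [Fintype V]

omit [DecidableEq V] in
theorem few (d : V → ℕ) (c : ℕ) (h : ∀ u w, u ≠ w → 2 * c ≤ 4 + d u + d w) :
    ∃ p < 2, (univ.filter fun v => d v < c - 2 + p).card ≤ p := by
  by_cases h0 : ∃ u, d u < c - 2
  · obtain ⟨u, hu⟩ := h0
    have key : ∀ v, d v < c - 2 + 1 → v = u := fun v hv => by
      by_contra e
      have := h v u e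
      omega
    exact ⟨1, by omega, card_le_one.2 fun v hv w hw =>
      (key v (mem_filter.1 hv).2).trans (key w (mem_filter.1 hw).2).symm⟩
  · refine ⟨0, by omega, ?_⟩
    rw [Nat.le_zero, card_eq_zero, filter_eq_empty_iff]
    exact fun v _ hv => h0 ⟨v, hv⟩

omit [DecidableEq V] in
theorem chk_sound {n a b lo hi p q l m M E F : ℕ} (hn : Fintype.card V = n) (d : V → ℕ)
    (hd : ∀ v, 1 ≤ d v ∧ d v + 2 ≤ n)
    (hp : (univ.filter fun v => d v < lo).card ≤ p) (hq : (univ.filter fun v => hi < d v).card ≤ q)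
    (hA : 2 * a * n.choose 4 ≤ 8 * n.choose 4 + ∑ v, B n 3 (d v))
    (hB : 2 * b * n.choose 4 ≤ 8 * n.choose 4 + ∑ v, B n 3 (n - 1 - d v))
    (h : chk' n a b lo hi p q l m M E F = true) : False := by
  unfold chk' at h
  rw [Bool.and_eq_true, List.all_eq_true, decide_eq_true_eq] at h
  have h1 := sum_le_three (fun v => wt n l m (d v)) d lo hi p q M E F hp hq fun v => by
    have := h.1 (d v) (List.mem_range'_1.2 ⟨(hd v).1, by have := hd v; omega⟩)
    exact of_decide_eq_true this
  have h2 := h.2
  unfold wt at h1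
  simp only [← B_eq] at h1
  rw [sum_add_distrib, ← mul_sum, ← mul_sum, hn] at h1
  rw [← ch_eq] at h2
  have h3 := Nat.mul_le_mul_left l hA
  have h4 := Nat.mul_le_mul_left m hB
  nlinarith

theorem core12 {G : SimpleGraph V} {a b : ℕ} (hn : 12 ≤ Fintype.card V)
    (ha : ∀ S, 2 * a ≤ cost G S) (hb : ∀ S, 2 * b ≤ cost Gᶜ S) (h1 : 2 * a ≤ Fintype.card V)
    (h2 : b ≤ a) (h3 : a + b = 2 * Fintype.card V / 3 + 4) (d0 : ∀ v, 1 ≤ deg G v)
    (e0 : ∀ v, 1 ≤ deg Gᶜ v) : False := by
  have hc := deg_compl G
  obtain ⟨q, hq2, hq⟩ := few (deg Gᶜ) a fun u w h => (ha _).trans (cost_pair G h)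
  obtain ⟨p, hp2, hp⟩ := few (deg G) b fun u w h => by
    have := (hb _).trans (cost_pair Gᶜ h)
    rwa [compl_compl] at this
  generalize hN : Fintype.card V = n at *
  by_cases h32 : n < 32
  · have hA := avg ha 3
    have hB := avg hb 3
    rw [hN] at hA hB
    have e : ∀ v, deg Gᶜ v = n - 1 - deg G v := fun v => by have := hc v; omega
    have hq' : (univ.filter fun v => n + 1 - a - q < deg G v).card ≤ q := by
      refine le_trans (card_le_card fun v hv => ?_) hq
      have := (mem_filter.1 hv).2
      have := hc v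
      exact mem_filter.2 ⟨mem_univ _, by omega⟩
    simp only [e] at hB
    have hd : ∀ v, 1 ≤ deg G v ∧ deg G v + 2 ≤ n := fun v =>
      ⟨d0 v, by have := hc v; have := e0 v; omega⟩
    have ht := table n h32 hn a (by omega) h1 (by omega)
    have hr : row n a p q = true := by
      simp only [Bool.and_eq_true] at ht
      interval_cases p <;> interval_cases q <;> tauto
    unfold row at hr
    rw [show 2 * n / 3 + 4 - a = b by omega, Bool.or_eq_true] at hr
    rcases hr with hr | hr
    · exact chk_sound hN _ hd hp hq' hA hB hr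
    · exact chk_sound hN _ hd hp hq' hA hB hr
  · have hB := avg hb 5
    rw [hN] at hB
    have h4 := sum_le_three (fun v => B n 5 (deg Gᶜ v)) (deg Gᶜ) (a - 2) n 1 0 (B n 5 (a - 2))
      (B n 5 0) 0 (by
        refine le_trans (card_le_card fun v hv => ?_) (hq.trans (by omega))
        have := (mem_filter.1 hv).2
        exact mem_filter.2 ⟨mem_univ _, by omega⟩) (by
        rw [Nat.le_zero, card_eq_zero, filter_eq_empty_iff]
        intro v _
        have := hc v
        omega) (fun v => by
        by_cases hv : deg Gᶜ v < a - 2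
        · have : B n 5 (deg Gᶜ v) ≤ B n 5 0 := B_anti n 4 (Nat.zero_le _)
          rw [if_pos hv]
          omega
        · have : B n 5 (deg Gᶜ v) ≤ B n 5 (a - 2) := B_anti n 4 (not_lt.1 hv)
          omega)
    rw [hN] at h4
    have h5 : 12 * n.choose 6 + (n * B n 5 (a - 2) + B n 5 0) < 2 * b * n.choose 6 := by
      by_cases h60 : n < 60
      · have := table2 n h60 (by omega) a (by omega) h1 (by omega)
        rwa [show 2 * n / 3 + 4 - a = b by omega, ← ch_eq, ← B_eq, ← B_eq] at this
      · exact large (by omega) h1 h2 h3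
    norm_num at hB h4
    omega

end Pool.Agent.OG
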