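import Pool.Agent.Lib.MP_e4b521_co.Pot

set_option autoImplicit false

namespace Pool.Agent.OG

open Finset
open scoped Classical

variable {V : Type} [DecidableEq V]

theorem cyc_dom {H : SimpleGraph V} {y : ℕ → V} {L : ℕ} (hL : 2 ≤ L)
    (hp : Function.Periodic y L) (hadj : ∀ i, H.Adj (y i) (y (i + 1))) {A : Finset (V × V)}
    (hf : Full H A) (j : ℕ)
    (hj : Even L ∨ ((y j, y (j + 1)) ∈ A ∧ (y j, y (j + (L - 1))) ∈ A)) :
    ∃ D : Finset V, 2 * D.card ≤ L ∧ ∀ i, y i ∉ D → ∃ u ∈ D, (u, y i) ∈ A := by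
  refine ⟨(range (L / 2)).image fun t =>
    if (y (j + 2 * t), y (j + 2 * t + 1)) ∈ A then y (j + 2 * t) else y (j + 2 * t + 1), ?_, ?_⟩
  · have := (card_image_le (s := range (L / 2)) (f := fun t =>
      if (y (j + 2 * t), y (j + 2 * t + 1)) ∈ A then y (j + 2 * t) else y (j + 2 * t + 1)))
    rw [card_range] at this
    omega
  · intro i hi
    obtain ⟨m, hm, hy⟩ : ∃ m, m < L ∧ y (j + m) = y i := by
      refine ⟨(i + (L - 1) * j) % L, Nat.mod_lt _ (by omega), ?_⟩
      rw [← hp.map_mod_nat (j + (i + (L - 1) * j) % L), Nat.add_mod_mod, ← hp.map_mod_nat i]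
      congr 1
      obtain ⟨L', rfl⟩ : ∃ L', L = L' + 1 := ⟨L - 1, by omega⟩
      rw [Nat.add_sub_cancel, show j + (i + L' * j) = i + (L' + 1) * j by ring,
        Nat.add_mul_mod_self_left]
    rw [← hy] at hi ⊢
    by_cases ht : m / 2 < L / 2
    · have hmem := mem_image_of_mem (fun t => if (y (j + 2 * t), y (j + 2 * t + 1)) ∈ A
        then y (j + 2 * t) else y (j + 2 * t + 1)) (mem_range.2 ht)
      refine ⟨_, hmem, ?_⟩
      by_cases hA : (y (j + 2 * (m / 2)), y (j + 2 * (m / 2) + 1)) ∈ A
      · simp only [if_pos hA] at hmem ⊢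
        rcases Nat.mod_two_eq_zero_or_one m with h | h
        · exact absurd (by rwa [show j + 2 * (m / 2) = j + m by omega] at hmem) hi
        · rwa [show j + m = j + 2 * (m / 2) + 1 by omega]
      · simp only [if_neg hA] at hmem ⊢
        have hA' := (hf _ _ (hadj (j + 2 * (m / 2)))).resolve_left hA
        rcases Nat.mod_two_eq_zero_or_one m with h | h
        · rwa [show j + m = j + 2 * (m / 2) by omega]
        · exact absurd (by rwa [show j + 2 * (m / 2) + 1 = j + m by omega] at hmem) hi
    · rcases hj with hj | hj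
      · obtain ⟨c, hc⟩ := hj
        omega
      · have hm' : m = L - 1 := by omega
        refine ⟨y j, mem_image.2 ⟨0, mem_range.2 (by omega), ?_⟩, hm' ▸ hj.2⟩
        simp [hj.1]

omit [DecidableEq V] in
theorem cyc_source {H : SimpleGraph V} {y : ℕ → V} {L : ℕ} (hL : 2 ≤ L)
    (hp : Function.Periodic y L) (hadj : ∀ i, H.Adj (y i) (y (i + 1))) {A : Finset (V × V)}
    (hf : Full H A) {i j : ℕ} (hi : (y i, y (i + 1)) ∈ A) (hj : (y (j + 1), y j) ∈ A) :
    ∃ j, (y j, y (j + 1)) ∈ A ∧ (y j, y (j + (L - 1))) ∈ A := by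
  by_contra c
  have step : ∀ t, (y (t + 1), y t) ∈ A → (y (t + 1), y (t + 1 + 1)) ∉ A := by
    intro t h1 h2
    refine c ⟨t + 1, h2, ?_⟩
    rwa [show t + 1 + (L - 1) = t + L by omega, hp t]
  have all : ∀ m, (y (j + m + 1), y (j + m)) ∈ A := by
    intro m
    induction m with
    | zero => exact hj
    | succ m ih => exact (hf _ _ (hadj (j + m + 1))).resolve_left (step _ ih)
  have h1 : ∀ t, y (t + (j + 1) * L) = y t := fun t => by
    have := hp.nat_mul (j + 1) t
    simpa using this
  have h2 : j + 1 ≤ (j + 1) * L := Nat.le_mul_of_pos_right _ (by omega)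
  obtain ⟨m, hm⟩ : ∃ m, i + (j + 1) * L = j + m + 1 := ⟨i + (j + 1) * L - (j + 1), by omega⟩
  apply step _ (all m)
  rw [← hm, h1, show i + (j + 1) * L + 1 = i + 1 + (j + 1) * L by ring, h1]
  exact hi

theorem good_cyc {H : SimpleGraph V} {y : ℕ → V} {L : ℕ} (hL : 2 ≤ L)
    (hp : Function.Periodic y L) (hadj : ∀ i, H.Adj (y i) (y (i + 1)))
    (hinj : Set.InjOn y (Set.Iio L)) : Good H ((range L).image y) := by
  have hcard : ((range L).image y).card = L := by
    rw [card_image_of_injOn (by simpa using hinj), card_range]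
  have hmem : ∀ i, y i ∈ (range L).image y := fun i =>
    mem_image.2 ⟨i % L, mem_range.2 (Nat.mod_lt _ (by omega)), hp.map_mod_nat i⟩
  rcases Nat.even_or_odd L with he | ho
  · refine ⟨Gad.triv H, fun _ _ h => h.elim, trivial, fun A _ hf => ?_⟩
    obtain ⟨D, h1, h2⟩ := cyc_dom hL hp hadj hf 0 (Or.inl he)
    refine ⟨D, by rwa [hcard], fun v hv => ?_⟩
    obtain ⟨i, -, rfl⟩ := mem_image.1 hv
    exact h2 i
  · have hL3 : 3 ≤ L := by
      obtain ⟨c, hc⟩ := ho
      omega
    have n01 : y 0 ≠ y 1 := (hadj 0).ne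
    have n12 : y 1 ≠ y 2 := (hadj 1).ne
    have n23 : y 2 ≠ y 3 := (hadj 2).ne
    have n02 : y 0 ≠ y 2 := fun c => by
      have := hinj (show 0 < L by omega) (show 2 < L by omega) c
      omega
    have n13 : y 1 ≠ y 3 := fun c => by
      by_cases h3 : L = 3
      · have := hp 0
        rw [h3] at this
        exact n01 (this.symm.trans c.symm)
      · have := hinj (show 1 < L by omega) (show 3 < L by omega) c
        omega
    refine ⟨Gad.tri H (fun i => (y i, y (i + 1))) (fun i => hadj i) ?_, ?_, ?_, ?_⟩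
    · intro i j hij
      fin_cases i <;> fin_cases j <;>
        simp_all [n01.symm, n12.symm, n23.symm, n02.symm, n13.symm]
    · rintro u v ⟨i, h | h⟩
      · obtain ⟨rfl, rfl⟩ := Prod.mk.inj h
        exact ⟨hmem _, hmem _⟩
      · obtain ⟨rfl, rfl⟩ := Prod.mk.inj h
        exact ⟨hmem _, hmem _⟩
    · exact Or.inr ⟨0, fun _ _ => by simp⟩
    · rintro A (⟨⟨i, hi⟩, j, hj⟩ | ⟨k, hk⟩) hf
      · obtain ⟨t, ht⟩ := cyc_source hL hp hadj hf hi hj
        obtain ⟨D, h1, h2⟩ := cyc_dom hL hp hadj hf t (Or.inr ht)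
        refine ⟨D, by rwa [hcard], fun v hv => ?_⟩
        obtain ⟨i, -, rfl⟩ := mem_image.1 hv
        exact h2 i
      · obtain ⟨i, hi⟩ := exists_ne k
        rcases hf _ _ (hadj i) with c | c
        · exact absurd c (hk i hi).1
        · exact absurd c (hk i hi).2

theorem good_of_inj [Fintype V] {H : SimpleGraph V} {τ : V → V} (hτ : Function.Injective τ)
    (R : Finset V) : (∀ v ∈ R, τ v ∈ R) → (∀ v ∈ R, H.Adj v (τ v)) → Good H R := by
  induction R using Finset.strongInduction with
  | H R ih =>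
    intro hm ha
    rcases R.eq_empty_or_nonempty with rfl | ⟨x, hx⟩
    · exact good_empty H
    have hper : x ∈ Function.periodicPts τ := hτ.mem_periodicPts x
    have hpos : 0 < Function.minimalPeriod τ x :=
      Function.minimalPeriod_pos_of_mem_periodicPts hper
    have hin : ∀ i, τ^[i] x ∈ R := by
      intro i
      induction i with
      | zero => exact hx
      | succ i h => rw [Function.iterate_succ_apply']; exact hm _ h
    have hp : Function.Periodic (fun i => τ^[i] x) (Function.minimalPeriod τ x) := fun i => by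
      simp only [Function.iterate_add_apply, Function.iterate_minimalPeriod]
    have hL : 2 ≤ Function.minimalPeriod τ x := by
      by_contra c
      have h1 : Function.minimalPeriod τ x = 1 := by omega
      have h2 := hp 0
      rw [h1] at h2
      exact (ha x hx).ne (by simpa using h2.symm)
    have hg := good_cyc (H := H) hL hp
      (fun i => by rw [Function.iterate_succ_apply']; exact ha _ (hin i))
      Function.iterate_injOn_Iio_minimalPeriod
    set O := (range (Function.minimalPeriod τ x)).image fun i => τ^[i] x with hO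
    have hsub : O ⊆ R := fun v hv => by
      obtain ⟨i, -, rfl⟩ := mem_image.1 hv
      exact hin i
    have hxO : x ∈ O := mem_image.2 ⟨0, mem_range.2 hpos, rfl⟩
    have hrest : Good H (R \ O) := by
      refine ih _ (sdiff_ssubset hsub ⟨x, hxO⟩) (fun v hv => ?_) fun v hv => ha v (mem_sdiff.1 hv).1
      refine mem_sdiff.2 ⟨hm v (mem_sdiff.1 hv).1, fun c => (mem_sdiff.1 hv).2 ?_⟩
      obtain ⟨i, -, hi⟩ := mem_image.1 c
      have h1 := hp i
      simp only at h1
      rw [show i + Function.minimalPeriod τ x = (i + (Function.minimalPeriod τ x - 1)) + 1 by omega,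
        Function.iterate_succ_apply', hi] at h1
      rw [← hτ h1]
      exact mem_image.2 ⟨_, mem_range.2 (Nat.mod_lt _ hpos), hp.map_mod_nat _⟩
    have := good_union disjoint_sdiff hg hrest
    rwa [union_sdiff_of_subset hsub] at this

theorem good_of_map [Fintype V] {H : SimpleGraph V} {σ : V → V} {R : Finset V}
    (hσ : Set.InjOn σ R) (hm : ∀ v ∈ R, σ v ∈ R) (ha : ∀ v ∈ R, H.Adj v (σ v)) : Good H R := by
  refine good_of_inj (τ := fun v => if v ∈ R then σ v else v) (fun u v h => ?_) R
    (fun v hv => by simp only [if_pos hv]; exact hm v hv)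
    (fun v hv => by simp only [if_pos hv]; exact ha v hv)
  by_cases hu : u ∈ R <;> by_cases hv : v ∈ R <;> simp only [hu, hv, if_true, if_false] at h
  · exact hσ hu hv h
  · exact absurd (h ▸ hm u hu) hv
  · exact absurd (h ▸ hm v hv) hu
  · exact h

end Pool.Agent.OG
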