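import Mathlib

set_option autoImplicit false

namespace Pool.Agent.OG

variable {V : Type} [DecidableEq V]

/-- every edge of H is oriented in A -/
def Full (H : SimpleGraph V) (A : Finset (V × V)) : Prop :=
  ∀ u v : V, H.Adj u v → (u, v) ∈ A ∨ (v, u) ∈ A

/-- the pair u, v carries no arc of A -/
def Free (A : Finset (V × V)) (u v : V) : Prop := (u, v) ∉ A ∧ (v, u) ∉ A

/-- Minimizer, moving first, can force domination number at most k -/
def Win (H : SimpleGraph V) (k : ℕ) : Prop :=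
  ∃ P : Set (Finset (V × V)), (∅ : Finset (V × V)) ∈ P ∧ ∀ A ∈ P,
    ((∀ u v : V, H.Adj u v → (u, v) ∈ A ∨ (v, u) ∈ A) →
        ∃ S : Finset V, S.card ≤ k ∧ ∀ v : V, v ∉ S → ∃ u ∈ S, (u, v) ∈ A) ∧
    ((¬ ∀ u v : V, H.Adj u v → (u, v) ∈ A ∨ (v, u) ∈ A) → Even A.card →
        ∃ u v : V, H.Adj u v ∧ (u, v) ∉ A ∧ (v, u) ∉ A ∧ insert (u, v) A ∈ P) ∧
    ((¬ ∀ u v : V, H.Adj u v → (u, v) ∈ A ∨ (v, u) ∈ A) → Odd A.card →
        ∀ u v : V, H.Adj u v → (u, v) ∉ A → (v, u) ∉ A → insert (u, v) A ∈ P)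

/-- a local strategy of the responder on a set of edges -/
structure Gad (H : SimpleGraph V) where
  sup : V → V → Prop
  safe : Finset (V × V) → Prop
  adj : ∀ u v, sup u v → H.Adj u v
  out : ∀ A u v, safe A → ¬ sup u v → safe (insert (u, v) A)
  resp : ∀ A u v, safe A → sup u v → Free A u v → safe (insert (u, v) A) ∨
    ∃ x y, sup x y ∧ Free (insert (u, v) A) x y ∧ safe (insert (x, y) (insert (u, v) A))
  ext : ∀ A u v, safe A → sup u v → Free A u v →
    ∃ x y, sup x y ∧ Free A x y ∧ safe (insert (x, y) A)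

theorem win_of_gad {H : SimpleGraph V} {k : ℕ} (g : Gad H)
    (h0 : g.safe ∅ ∨ ∃ x y, H.Adj x y ∧ g.safe (insert (x, y) ∅))
    (hfin : ∀ A, g.safe A → Full H A →
      ∃ S : Finset V, S.card ≤ k ∧ ∀ v : V, v ∉ S → ∃ u ∈ S, (u, v) ∈ A) : Win H k := by
  refine ⟨{A | g.safe A ∨ (Even A.card ∧ ∃ x y, H.Adj x y ∧ Free A x y ∧
    g.safe (insert (x, y) A))}, ?_, ?_⟩
  · rcases h0 with h | ⟨x, y, h1, h2⟩
    · exact Or.inl h
    · exact Or.inr ⟨by simp, x, y, h1, ⟨by simp, by simp⟩, h2⟩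
  · intro A hA
    refine ⟨fun hf => ?_, fun hf he => ?_, fun hf ho u v huv h1 h2 => ?_⟩
    · rcases hA with h | ⟨-, x, y, h1, h2, -⟩
      · exact hfin A h hf
      · rcases hf x y h1 with h | h
        · exact absurd h h2.1
        · exact absurd h h2.2
    · rcases hA with h | ⟨-, x, y, h1, h2, h3⟩
      · push Not at hf
        obtain ⟨u, v, huv, h1, h2⟩ := hf
        by_cases hs : g.sup u v
        · obtain ⟨x, y, h3, h4, h5⟩ := g.ext A u v h hs ⟨h1, h2⟩
          exact ⟨x, y, g.adj x y h3, h4.1, h4.2, Or.inl h5⟩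
        · exact ⟨u, v, huv, h1, h2, Or.inl (g.out A u v h hs)⟩
      · exact ⟨x, y, h1, h2.1, h2.2, Or.inl h3⟩
    · rcases hA with h | ⟨he, -⟩
      · by_cases hs : g.sup u v
        · rcases g.resp A u v h hs ⟨h1, h2⟩ with h3 | ⟨x, y, h3, h4, h5⟩
          · exact Or.inl h3
          · refine Or.inr ⟨?_, x, y, g.adj x y h3, h4, h5⟩
            rw [Finset.card_insert_of_notMem h1]
            exact ho.add_one
        · exact Or.inl (g.out A u v h hs)
      · exact absurd he (Nat.not_even_iff_odd.2 ho)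

/-- two local strategies on disjoint edge sets, played together -/
def Gad.prod {H : SimpleGraph V} (g₁ g₂ : Gad H) (hd : ∀ u v, g₁.sup u v → ¬ g₂.sup u v) :
    Gad H where
  sup u v := g₁.sup u v ∨ g₂.sup u v
  safe A := g₁.safe A ∧ g₂.safe A
  adj u v h := h.elim (g₁.adj u v) (g₂.adj u v)
  out A u v h hs := ⟨g₁.out A u v h.1 fun c => hs (Or.inl c), g₂.out A u v h.2 fun c => hs (Or.inr c)⟩
  resp A u v h hs hf := by
    rcases hs with hs | hs
    · have h2 := g₂.out A u v h.2 (hd u v hs)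
      rcases g₁.resp A u v h.1 hs hf with h3 | ⟨x, y, h3, h4, h5⟩
      · exact Or.inl ⟨h3, h2⟩
      · exact Or.inr ⟨x, y, Or.inl h3, h4, h5, g₂.out _ x y h2 (hd x y h3)⟩
    · have h2 := g₁.out A u v h.1 (fun c => hd u v c hs)
      rcases g₂.resp A u v h.2 hs hf with h3 | ⟨x, y, h3, h4, h5⟩
      · exact Or.inl ⟨h2, h3⟩
      · exact Or.inr ⟨x, y, Or.inr h3, h4, g₁.out _ x y h2 (fun c => hd x y c h3), h5⟩
  ext A u v h hs hf := by
    rcases hs with hs | hs
    · obtain ⟨x, y, h3, h4, h5⟩ := g₁.ext A u v h.1 hs hf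
      exact ⟨x, y, Or.inl h3, h4, h5, g₂.out _ x y h.2 (hd x y h3)⟩
    · obtain ⟨x, y, h3, h4, h5⟩ := g₂.ext A u v h.2 hs hf
      exact ⟨x, y, Or.inr h3, h4, g₁.out _ x y h.1 (fun c => hd x y c h3), h5⟩

/-- the empty local strategy -/
def Gad.triv (H : SimpleGraph V) : Gad H where
  sup _ _ := False
  safe _ := True
  adj _ _ h := h.elim
  out _ _ _ _ _ := trivial
  resp _ _ _ _ h _ := h.elim
  ext _ _ _ _ h _ := h.elim

/-- three edges with reference directions: the responder gets both directions -/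
def Gad.tri (H : SimpleGraph V) (e : Fin 3 → V × V) (hadj : ∀ i, H.Adj (e i).1 (e i).2)
    (hne : ∀ i j, i ≠ j → e i ≠ e j ∧ e i ≠ (e j).swap) : Gad H where
  sup u v := ∃ i, (u, v) = e i ∨ (u, v) = (e i).swap
  safe A := ((∃ i, e i ∈ A) ∧ ∃ i, (e i).swap ∈ A) ∨ ∃ k, ∀ i, i ≠ k → e i ∉ A ∧ (e i).swap ∉ A
  adj u v h := by
    obtain ⟨i, h | h⟩ := h
    · have := hadj i
      rw [← h] at this
      exact this
    · have := (hadj i).symm
      have h' : e i = (v, u) := by rw [← Prod.swap_swap (e i), ← h]; rfl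
      rw [h'] at this
      exact this
  out A u v h hs := by
    push Not at hs
    rcases h with ⟨⟨i, hi⟩, j, hj⟩ | ⟨k, hk⟩
    · exact Or.inl ⟨⟨i, Finset.mem_insert_of_mem hi⟩, j, Finset.mem_insert_of_mem hj⟩
    · refine Or.inr ⟨k, fun i hi => ?_⟩
      simp only [Finset.mem_insert, not_or]
      exact ⟨⟨(hs i).1.symm, (hk i hi).1⟩, (hs i).2.symm, (hk i hi).2⟩
  resp A u v h hs hf := by
    obtain ⟨m, hm⟩ := hs
    have key : ∀ i, i ≠ m → e i ∉ A ∧ (e i).swap ∉ A →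
        e i ∉ insert (u, v) A ∧ (e i).swap ∉ insert (u, v) A := by
      intro i hi h2
      simp only [Finset.mem_insert, not_or]
      rcases hm with hm | hm
      · rw [hm]
        exact ⟨⟨(hne i m hi).1, h2.1⟩, (hne m i hi.symm).2.symm, h2.2⟩
      · rw [hm]
        exact ⟨⟨(hne i m hi).2, h2.1⟩, fun c => (hne i m hi).1 (Prod.swap_injective c), h2.2⟩
    rcases h with ⟨⟨i, hi⟩, j, hj⟩ | ⟨k, hk⟩
    · exact Or.inl (Or.inl ⟨⟨i, Finset.mem_insert_of_mem hi⟩, j, Finset.mem_insert_of_mem hj⟩)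
    · by_cases hfr : m = k ∨ (e k ∉ A ∧ (e k).swap ∉ A)
      · refine Or.inl (Or.inr ⟨m, fun i hi => key i hi ?_⟩)
        by_cases hik : i = k
        · rcases hfr with h | h
          · exact absurd (hik.trans h.symm) hi
          · rw [hik]; exact h
        · exact hk i hik
      · have hex : ∀ m k : Fin 3, ∃ j, j ≠ m ∧ j ≠ k := by decide
        obtain ⟨j, hjm, hjk⟩ := hex m k
        have hj := key j hjm (hk j hjk)
        by_cases hek : e k ∈ A
        · refine Or.inr ⟨(e j).2, (e j).1, ⟨j, Or.inr rfl⟩, ⟨hj.2, hj.1⟩, Or.inl ⟨⟨k, ?_⟩, j, ?_⟩⟩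
          · exact Finset.mem_insert_of_mem (Finset.mem_insert_of_mem hek)
          · exact Finset.mem_insert_self _ _
        · have hek' : (e k).swap ∈ A := by
            by_contra c
            exact hfr (Or.inr ⟨hek, c⟩)
          refine Or.inr ⟨(e j).1, (e j).2, ⟨j, Or.inl rfl⟩, ⟨hj.1, hj.2⟩, Or.inl ⟨⟨j, ?_⟩, k, ?_⟩⟩
          · exact Finset.mem_insert_self _ _
          · exact Finset.mem_insert_of_mem (Finset.mem_insert_of_mem hek')
  ext A u v h hs hf := by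
    obtain ⟨m, hm⟩ := hs
    have hm' : e m ∉ A ∧ (e m).swap ∉ A := by
      rcases hm with hm | hm
      · rw [← hm]; exact hf
      · have h' : e m = (v, u) := by rw [← Prod.swap_swap (e m), ← hm]; rfl
        rw [h']; exact ⟨hf.2, hf.1⟩
    rcases h with ⟨⟨i, hi⟩, j, hj⟩ | ⟨k, hk⟩
    · exact ⟨u, v, ⟨m, hm⟩, hf,
        Or.inl ⟨⟨i, Finset.mem_insert_of_mem hi⟩, j, Finset.mem_insert_of_mem hj⟩⟩
    · by_cases hek : e k ∈ A
      · exact ⟨(e m).2, (e m).1, ⟨m, Or.inr rfl⟩, ⟨hm'.2, hm'.1⟩,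
          Or.inl ⟨⟨k, Finset.mem_insert_of_mem hek⟩, m, Finset.mem_insert_self _ _⟩⟩
      · by_cases hek' : (e k).swap ∈ A
        · exact ⟨(e m).1, (e m).2, ⟨m, Or.inl rfl⟩, hm',
            Or.inl ⟨⟨m, Finset.mem_insert_self _ _⟩, k, Finset.mem_insert_of_mem hek'⟩⟩
        · refine ⟨(e m).1, (e m).2, ⟨m, Or.inl rfl⟩, hm', Or.inr ⟨m, fun i hi => ?_⟩⟩
          have h2 : e i ∉ A ∧ (e i).swap ∉ A := by
            by_cases hik : i = k
            · rw [hik]; exact ⟨hek, hek'⟩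
            · exact hk i hik
          simp only [Finset.mem_insert, not_or]
          exact ⟨⟨(hne i m hi).1, h2.1⟩, (hne m i hi.symm).2.symm, h2.2⟩

end Pool.Agent.OG
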