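import Pool.Agent.Lib.MP_e4b521_co.Core
import Pool.Agent.Lib.MP_e4b521_co.TenTop

set_option autoImplicit false

namespace Pool.Agent.OG

open Finset
open scoped Classical

variable {V : Type} [DecidableEq V] [Fintype V]

theorem greedy [Nonempty V] (G : SimpleGraph V) (m : ℕ) (hm : m ≤ Fintype.card V) :
    ∃ f : ℕ → V, Set.InjOn f (Set.Iio m) ∧ ∀ j < m, ∀ v, (∀ t < j, f t ≠ v) → ∀ i < j,
      (∀ t < i, (G.Adj (f t) (f j) ↔ G.Adj (f t) v)) → G.Adj (f i) v → G.Adj (f i) (f j) := by
  induction m with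
  | zero => exact ⟨fun _ => Classical.arbitrary V, by simp, by simp⟩
  | succ m ih =>
    obtain ⟨f, h1, h2⟩ := ih (by omega)
    have hne : (univ \ (range m).image f).Nonempty := by
      rw [← card_pos, card_univ_sdiff]
      have := card_image_le (s := range m) (f := f)
      rw [card_range] at this
      omega
    obtain ⟨w, hw, hmax⟩ := exists_max_image _
      (fun v => (toLex fun t => decide (G.Adj (f t) v) : Lex (ℕ → Bool))) hne
    have hw' : ∀ t < m, f t ≠ w := fun t ht c =>
      (mem_sdiff.1 hw).2 (mem_image.2 ⟨t, mem_range.2 ht, c⟩)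
    have e1 : ∀ t < m, Function.update f m w t = f t := fun t ht =>
      Function.update_of_ne ht.ne _ _
    have e2 : Function.update f m w m = w := Function.update_self _ _ _
    refine ⟨Function.update f m w, fun s hs t ht h => ?_, fun j hj v hv i hi h3 h4 => ?_⟩
    · rcases Nat.lt_succ_iff_lt_or_eq.1 hs with hs | hs <;>
        rcases Nat.lt_succ_iff_lt_or_eq.1 ht with ht | ht
      · rw [e1 s hs, e1 t ht] at h
        exact h1 hs ht h
      · rw [e1 s hs, ht, e2] at h
        exact absurd h (hw' s hs)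
      · rw [e1 t ht, hs, e2] at h
        exact absurd h.symm (hw' t ht)
      · rw [hs, ht]
    · rcases Nat.lt_succ_iff_lt_or_eq.1 hj with hj | hj
      · rw [e1 i (by omega)] at h4 ⊢
        rw [e1 j hj] at h3 ⊢
        refine h2 j hj v (fun t ht => ?_) i hi (fun t ht => ?_) h4
        · have := hv t ht
          rwa [e1 t (by omega)] at this
        · have := h3 t ht
          rwa [e1 t (by omega)] at this
      · subst hj
        rw [e1 i hi] at h4 ⊢
        rw [e2] at h3 ⊢
        by_contra c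
        have hv' : v ∈ univ \ (range j).image f := by
          refine mem_sdiff.2 ⟨mem_univ _, fun d => ?_⟩
          obtain ⟨t, ht, e⟩ := mem_image.1 d
          have := hv t (mem_range.1 ht)
          rw [e1 t (mem_range.1 ht)] at this
          exact this e
        refine absurd (hmax v hv') (not_le.2 ⟨i, fun t ht => ?_, ?_⟩)
        · have := h3 t ht
          rw [e1 t (by omega)] at this
          exact decide_eq_decide.2 this
        · change decide (G.Adj (f i) w) < decide (G.Adj (f i) v)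
          simp [c, h4]

theorem dear_of {H : SimpleGraph V} (hn : Fintype.card V = 10) {f : ℕ → V}
    (hf : Set.InjOn f (Set.Iio 10)) (h : ∀ S, 10 ≤ cost H S) {y : ℕ → ℕ → Prop}
    (hy : ∀ s < 10, ∀ i < 10, s ≠ i → y s i → H.Adj (f s) (f i)) : Dear y := by
  intro T hT
  refine (h (T.image f)).trans ?_
  have hf' : Set.InjOn f (range 10 : Finset ℕ) := by simpa using hf
  have hu : (range 10).image f = univ := by
    apply eq_univ_of_card
    rw [card_image_of_injOn hf', card_range, hn]
  unfold cost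
  rw [← hu, sum_image hf']
  refine sum_le_sum fun i hi => ?_
  by_cases hiT : i ∈ T
  · rw [if_pos hiT, if_pos (mem_image_of_mem f hiT)]
  · have : f i ∉ T.image f := fun c => by
      obtain ⟨t, ht, e⟩ := mem_image.1 c
      exact hiT (hf' (hT ht) hi e ▸ ht)
    rw [if_neg hiT, if_neg this]
    apply Nat.sub_le_sub_left
    refine card_le_card_of_injOn f (fun s hs => ?_) fun s hs t ht e => ?_
    · have hs' := mem_filter.1 hs
      exact mem_filter.2 ⟨mem_image_of_mem f hs'.1, hy s (mem_range.1 (hT hs'.1)) i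
        (mem_range.1 hi) (fun c => hiT (c ▸ hs'.1)) hs'.2⟩
    · exact hf' (hT (mem_filter.1 hs).1) (hT (mem_filter.1 ht).1) e

theorem core10 {G : SimpleGraph V} (hn : Fintype.card V = 10) (ha : ∀ S, 10 ≤ cost G S)
    (hb : ∀ S, 10 ≤ cost Gᶜ S) : False := by
  have : Nonempty V := Fintype.card_pos_iff.1 (by omega)
  obtain ⟨f, h1, h2⟩ := greedy G 10 hn.ge
  refine bad_zero (fun i j => G.Adj (f i) (f j)) ⟨fun _ _ h => h.symm,
    dear_of hn h1 ha fun _ _ _ _ _ h => h,
    dear_of hn h1 hb fun s hs i hi hne h => ⟨fun c => hne (h1 hs hi c), h⟩,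
    fun i j hij hj h3 h4 => h2 j (by omega) _ (fun t ht c => ?_) i hij h3 h4⟩
    (fun s i _ h => by simp at h) fun s i _ h => by simp at h
  have := h1 (show t < 10 by omega) hj c
  omega

theorem two_leaves {G : SimpleGraph V} (h0 : ∀ v, ∃ w, G.Adj v w) {u w : V} (h : u ≠ w)
    (hu : deg G u ≤ 1) (hw : deg G w ≤ 1) :
    ∃ k₁ k₂, Win G k₁ ∧ Win Gᶜ k₂ ∧ 3 * (k₁ + k₂) ≤ 2 * Fintype.card V + 9 := by
  refine ⟨_, _, win_two_thirds h0, win_cost Gᶜ {u, w}, ?_⟩
  have := cost_pair Gᶜ h
  rw [compl_compl] at this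
  omega

theorem main_deg {G : SimpleGraph V} (h0 : ∀ v, ∃ w, G.Adj v w) (h0' : ∀ v, ∃ w, Gᶜ.Adj v w) :
    ∃ k₁ k₂, Win G k₁ ∧ Win Gᶜ k₂ ∧ 3 * (k₁ + k₂) ≤ 2 * Fintype.card V + 9 := by
  by_cases h1 : ∀ u w, deg G u ≤ 1 → deg G w ≤ 1 → u = w
  swap
  · push Not at h1
    obtain ⟨u, w, hu, hw, h⟩ := h1
    exact two_leaves h0 h hu hw
  by_cases h2 : ∀ u w, deg Gᶜ u ≤ 1 → deg Gᶜ w ≤ 1 → u = w
  swap
  · push Not at h2
    obtain ⟨u, w, hu, hw, h⟩ := h2
    obtain ⟨k₁, k₂, a1, a2, a3⟩ := two_leaves h0' h hu hw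
    rw [compl_compl] at a2
    exact ⟨k₂, k₁, a2, a1, by omega⟩
  have ea : ∃ k, Win G k := ⟨_, win_half h0 h1⟩
  have eb : ∃ k, Win Gᶜ k := ⟨_, win_half h0' h2⟩
  refine ⟨Nat.find ea, Nat.find eb, Nat.find_spec ea, Nat.find_spec eb, ?_⟩
  have a1 := Nat.find_min' ea (win_half h0 h1)
  have b1 := Nat.find_min' eb (win_half h0' h2)
  have a2 : ∀ S, 2 * Nat.find ea ≤ cost G S := fun S => by
    have := Nat.find_min' ea (win_cost G S)
    omega
  have b2 : ∀ S, 2 * Nat.find eb ≤ cost Gᶜ S := fun S => by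
    have := Nat.find_min' eb (win_cost Gᶜ S)
    omega
  generalize Nat.find ea = a at *
  generalize Nat.find eb = b at *
  have pos : ∀ H : SimpleGraph V, (∀ v, ∃ w, H.Adj v w) → ∀ v, 1 ≤ deg H v := fun H h v => by
    obtain ⟨w, hw⟩ := h v
    exact card_pos.2 ⟨w, mem_filter.2 ⟨mem_univ _, hw.symm⟩⟩
  by_contra c
  by_cases hn : 12 ≤ Fintype.card V
  · rcases le_total b a with hab | hab
    · exact core12 (a := a) (b := 2 * Fintype.card V / 3 + 4 - a) hn a2
        (fun S => le_trans (by omega) (b2 S)) (by omega) (by omega) (by omega) (pos _ h0)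
        (pos _ h0')
    · refine core12 (G := Gᶜ) (a := b) (b := 2 * Fintype.card V / 3 + 4 - b) hn b2
        (fun S => ?_) (by omega) (by omega) (by omega) (pos _ h0') ?_
      · rw [compl_compl]
        exact le_trans (by omega) (a2 S)
      · rw [compl_compl]
        exact pos _ h0
  · exact core10 (G := G) (by omega) (fun S => le_trans (by omega) (a2 S))
      fun S => le_trans (by omega) (b2 S)

theorem win_card (H : SimpleGraph V) : Win H (Fintype.card V) :=
  win_of_gad (Gad.triv H) (Or.inl trivial) fun _ _ _ => ⟨univ, le_rfl, by simp⟩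

theorem main {G : SimpleGraph V} (h : G.Connected) (h' : Gᶜ.Connected) :
    ∃ k₁ k₂, Win G k₁ ∧ Win Gᶜ k₂ ∧ 3 * (k₁ + k₂) ≤ 2 * Fintype.card V + 9 := by
  by_cases hn : Fintype.card V ≤ 1
  · exact ⟨_, _, win_card G, win_card Gᶜ, by omega⟩
  · have : Nontrivial V := Fintype.one_lt_card_iff_nontrivial.1 (by omega)
    exact main_deg (fun v => h.preconnected.exists_adj_of_nontrivial v)
      fun v => h'.preconnected.exists_adj_of_nontrivial v

end Pool.Agent.OG
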