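import Pool.Agent.Lib.MP_e4b521_co.Game

set_option autoImplicit false

namespace Pool.Agent.OG

open Finset
open scoped Classical

variable {V : Type} [DecidableEq V]

/-- potential of one vertex -/
noncomputable def phi (H : SimpleGraph V) (S : Finset V) (A : Finset (V × V)) (v : V) : ℕ :=
  if ∃ s ∈ S, (s, v) ∈ A then 0 else 2 - (S.filter fun s => H.Adj s v ∧ Free A s v).card

theorem phi_ne {H : SimpleGraph V} {S : Finset V} (A : Finset (V × V)) {x y v : V}
    (h : ¬ (x = v ∧ y ∈ S ∧ H.Adj y v)) : phi H S (insert (x, y) A) v ≤ phi H S A v := by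
  unfold phi
  by_cases h1 : ∃ s ∈ S, (s, v) ∈ insert (x, y) A
  · rw [if_pos h1]; exact Nat.zero_le _
  · rw [if_neg h1]
    have h2 : ¬ ∃ s ∈ S, (s, v) ∈ A := fun ⟨s, hs, h3⟩ => h1 ⟨s, hs, mem_insert_of_mem h3⟩
    rw [if_neg h2]
    apply Nat.sub_le_sub_left
    apply card_le_card
    intro s hs
    rw [mem_filter] at hs ⊢
    refine ⟨hs.1, hs.2.1, fun c => h1 ⟨s, hs.1, c⟩, fun c => ?_⟩
    rcases mem_insert.1 c with c | c
    · obtain ⟨c1, c2⟩ := Prod.mk.inj c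
      exact h ⟨c1.symm, c2 ▸ hs.1, c2 ▸ hs.2.1⟩
    · exact hs.2.2.2 c

theorem phi_le {H : SimpleGraph V} {S : Finset V} (A : Finset (V × V)) (x y v : V) :
    phi H S (insert (x, y) A) v ≤ phi H S A v + 1 := by
  unfold phi
  by_cases h1 : ∃ s ∈ S, (s, v) ∈ insert (x, y) A
  · rw [if_pos h1]; exact Nat.zero_le _
  · rw [if_neg h1]
    have h2 : ¬ ∃ s ∈ S, (s, v) ∈ A := fun ⟨s, hs, h3⟩ => h1 ⟨s, hs, mem_insert_of_mem h3⟩
    rw [if_neg h2]
    have h3 : (S.filter fun s => H.Adj s v ∧ Free A s v) ⊆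
        insert y (S.filter fun s => H.Adj s v ∧ Free (insert (x, y) A) s v) := by
      intro s hs
      rw [mem_filter] at hs
      by_cases hy : s = y
      · rw [hy]; exact mem_insert_self _ _
      · refine mem_insert_of_mem (mem_filter.2
          ⟨hs.1, hs.2.1, fun c => h1 ⟨s, hs.1, c⟩, fun c => ?_⟩)
        rcases mem_insert.1 c with c | c
        · exact hy (Prod.mk.inj c).2
        · exact hs.2.2.2 c
    have h4 := (card_le_card h3).trans (card_insert_le _ _)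
    omega

theorem phi_cases {H : SimpleGraph V} {S : Finset V} (A : Finset (V × V)) (v : V) :
    Even (phi H S A v) ∨ (phi H S A v = 1 ∧ ∃ s ∈ S, H.Adj s v ∧ Free A s v) := by
  unfold phi
  split_ifs with h1
  · exact Or.inl (by simp)
  · rcases Nat.eq_zero_or_pos (S.filter fun s => H.Adj s v ∧ Free A s v).card with h | h
    · rw [h]; exact Or.inl (by simp)
    · obtain ⟨s, hs⟩ := card_pos.1 h
      rw [mem_filter] at hs
      by_cases h2 : (S.filter fun s => H.Adj s v ∧ Free A s v).card = 1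
      · exact Or.inr ⟨by rw [h2], s, hs.1, hs.2⟩
      · refine Or.inl ?_
        rw [Nat.sub_eq_zero_of_le (by omega)]
        simp

/-- total potential -/
noncomputable def Phi (H : SimpleGraph V) (S W : Finset V) (A : Finset (V × V)) : ℕ :=
  ∑ v ∈ W, phi H S A v

theorem Phi_ne {H : SimpleGraph V} {S W : Finset V} (A : Finset (V × V)) {x y : V}
    (h : ¬ (x ∈ W ∧ y ∈ S ∧ H.Adj y x)) : Phi H S W (insert (x, y) A) ≤ Phi H S W A :=
  sum_le_sum fun _ hv => phi_ne A fun ⟨c1, c2, c3⟩ => h ⟨c1 ▸ hv, c2, c1 ▸ c3⟩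

theorem Phi_le {H : SimpleGraph V} {S W : Finset V} (A : Finset (V × V)) (x y : V) :
    Phi H S W (insert (x, y) A) ≤ Phi H S W A + 1 := by
  by_cases hx : x ∈ W
  · unfold Phi
    rw [← add_sum_erase W _ hx, ← add_sum_erase W _ hx]
    have h1 := phi_le (H := H) (S := S) A x y x
    have h2 : ∑ v ∈ W.erase x, phi H S (insert (x, y) A) v ≤ ∑ v ∈ W.erase x, phi H S A v :=
      sum_le_sum fun v hv => phi_ne A fun c => (mem_erase.1 hv).1 c.1.symm
    omega
  · exact (Phi_ne A fun c => hx c.1).trans (Nat.le_succ _)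

theorem Phi_fix {H : SimpleGraph V} {S W : Finset V} (hd : Disjoint S W) (A : Finset (V × V))
    {K : ℕ} (h : Phi H S W A = 2 * K + 1) :
    ∃ s ∈ S, ∃ v ∈ W, H.Adj s v ∧ Free A s v ∧ Phi H S W (insert (s, v) A) ≤ 2 * K := by
  have h1 : ∃ v ∈ W, ¬ Even (phi H S A v) := by
    by_contra c
    push Not at c
    have : Even (Phi H S W A) := even_sum _ c
    rw [h] at this
    simp at this
  obtain ⟨v, hv, h2⟩ := h1
  obtain ⟨h3, s, hs, h4, h5⟩ := (phi_cases A v).resolve_left h2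
  refine ⟨s, hs, v, hv, h4, h5, ?_⟩
  unfold Phi at h ⊢
  rw [← add_sum_erase W _ hv] at h ⊢
  have h6 : phi H S (insert (s, v) A) v = 0 := by
    unfold phi
    rw [if_pos ⟨s, hs, mem_insert_self _ _⟩]
  have h7 : ∑ w ∈ W.erase v, phi H S (insert (s, v) A) w ≤ ∑ w ∈ W.erase v, phi H S A w :=
    sum_le_sum fun w hw => phi_ne A fun c =>
      disjoint_left.1 hd hs (c.1 ▸ (mem_erase.1 hw).2)
  omega

/-- the potential strategy on the edges between S and W -/
noncomputable def Gad.pot (H : SimpleGraph V) (S W : Finset V) (hd : Disjoint S W) (K : ℕ) :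
    Gad H where
  sup u v := H.Adj u v ∧ ((u ∈ S ∧ v ∈ W) ∨ (u ∈ W ∧ v ∈ S))
  safe A := Phi H S W A ≤ 2 * K
  adj _ _ h := h.1
  out A u v h hs := (Phi_ne A fun c => hs ⟨c.2.2.symm, Or.inr ⟨c.1, c.2.1⟩⟩).trans h
  resp A u v h _ _ := by
    have h1 := Phi_le (H := H) (S := S) (W := W) A u v
    by_cases h2 : Phi H S W (insert (u, v) A) ≤ 2 * K
    · exact Or.inl h2
    · obtain ⟨s, hs, w, hw, h3, h4, h5⟩ :=
        Phi_fix (H := H) hd (insert (u, v) A) (K := K) (by omega)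
      exact Or.inr ⟨s, w, ⟨h3, Or.inl ⟨hs, hw⟩⟩, h4, h5⟩
  ext A u v h hs hf := by
    rcases hs with ⟨h1, h2 | h2⟩
    · exact ⟨u, v, ⟨h1, Or.inl h2⟩, hf,
        (Phi_ne A fun c => disjoint_left.1 hd h2.1 c.1).trans h⟩
    · exact ⟨v, u, ⟨h1.symm, Or.inl ⟨h2.2, h2.1⟩⟩, ⟨hf.2, hf.1⟩,
        (Phi_ne A fun c => disjoint_left.1 hd h2.2 c.1).trans h⟩

theorem Phi_full {H : SimpleGraph V} {S W : Finset V} {A : Finset (V × V)} (hf : Full H A) :
    2 * (W.filter fun v => ¬ ∃ s ∈ S, (s, v) ∈ A).card ≤ Phi H S W A := by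
  unfold Phi
  rw [card_filter, mul_sum]
  apply sum_le_sum
  intro v _
  unfold phi
  by_cases h : ∃ s ∈ S, (s, v) ∈ A
  · simp [h]
  · rw [if_pos h, if_neg h]
    have : (S.filter fun s => H.Adj s v ∧ Free A s v) = ∅ := by
      apply filter_eq_empty_iff.2
      rintro s - ⟨h1, h2⟩
      rcases hf s v h1 with c | c
      · exact h2.1 c
      · exact h2.2 c
    rw [this]
    simp

theorem Phi_empty (H : SimpleGraph V) (S W : Finset V) :
    Phi H S W ∅ = ∑ v ∈ W, (2 - (S.filter fun s => H.Adj s v).card) := by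
  unfold Phi phi Free
  simp

/-- on R the responder can force a dominating set of size at most half of R -/
def Good (H : SimpleGraph V) (R : Finset V) : Prop :=
  ∃ g : Gad H, (∀ u v, g.sup u v → u ∈ R ∧ v ∈ R) ∧ g.safe ∅ ∧ ∀ A, g.safe A → Full H A →
    ∃ D : Finset V, 2 * D.card ≤ R.card ∧ ∀ v ∈ R, v ∉ D → ∃ u ∈ D, (u, v) ∈ A

theorem good_empty (H : SimpleGraph V) : Good H ∅ :=
  ⟨Gad.triv H, fun _ _ h => h.elim, trivial, fun _ _ _ => ⟨∅, by simp, by simp⟩⟩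

theorem good_union {H : SimpleGraph V} {R₁ R₂ : Finset V} (hd : Disjoint R₁ R₂)
    (h₁ : Good H R₁) (h₂ : Good H R₂) : Good H (R₁ ∪ R₂) := by
  obtain ⟨g₁, a1, a2, a3⟩ := h₁
  obtain ⟨g₂, b1, b2, b3⟩ := h₂
  refine ⟨g₁.prod g₂ fun u v c1 c2 => disjoint_left.1 hd (a1 u v c1).1 (b1 u v c2).1, ?_,
    ⟨a2, b2⟩, ?_⟩
  · rintro u v (h | h)
    · exact ⟨mem_union_left _ (a1 u v h).1, mem_union_left _ (a1 u v h).2⟩
    · exact ⟨mem_union_right _ (b1 u v h).1, mem_union_right _ (b1 u v h).2⟩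
  · intro A hA hf
    obtain ⟨D₁, c1, c2⟩ := a3 A hA.1 hf
    obtain ⟨D₂, d1, d2⟩ := b3 A hA.2 hf
    refine ⟨D₁ ∪ D₂, ?_, fun v hv hn => ?_⟩
    · have := card_union_le D₁ D₂
      rw [card_union_of_disjoint hd]
      omega
    · rw [mem_union, not_or] at hn
      rcases mem_union.1 hv with hv | hv
      · obtain ⟨u, hu, h⟩ := c2 v hv hn.1
        exact ⟨u, mem_union_left _ hu, h⟩
      · obtain ⟨u, hu, h⟩ := d2 v hv hn.2
        exact ⟨u, mem_union_right _ hu, h⟩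

theorem win_cover [Fintype V] {H : SimpleGraph V} {S R : Finset V} (hd : Disjoint S R)
    (hR : Good H R) {K k : ℕ}
    (hc : ∑ v ∈ univ \ (S ∪ R), (2 - (S.filter fun s => H.Adj s v).card) ≤ 2 * K + 1)
    (hk : S.card + K + R.card / 2 ≤ k) : Win H k := by
  obtain ⟨g, a1, a2, a3⟩ := hR
  have hW : Disjoint S (univ \ (S ∪ R)) :=
    disjoint_left.2 fun s hs c => (mem_sdiff.1 c).2 (mem_union_left _ hs)
  have hdis : ∀ u v, (Gad.pot H S _ hW K).sup u v → ¬ g.sup u v := by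
    rintro u v ⟨-, h | h⟩ c
    · exact disjoint_left.1 hd h.1 (a1 u v c).1
    · exact disjoint_left.1 hd h.2 (a1 u v c).2
  rw [← Phi_empty] at hc
  apply win_of_gad ((Gad.pot H S _ hW K).prod g hdis)
  · by_cases h2 : Phi H S (univ \ (S ∪ R)) ∅ ≤ 2 * K
    · exact Or.inl ⟨h2, a2⟩
    · obtain ⟨s, hs, w, hw, h3, -, h5⟩ := Phi_fix (H := H) hW ∅ (K := K) (by omega)
      exact Or.inr ⟨s, w, h3, h5, g.out _ s w a2 (hdis s w ⟨h3, Or.inl ⟨hs, hw⟩⟩)⟩
  · intro A hA hf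
    obtain ⟨D, c1, c2⟩ := a3 A hA.2 hf
    have h1 := (Phi_full (S := S) (W := univ \ (S ∪ R)) hf).trans hA.1
    refine ⟨(S ∪ (univ \ (S ∪ R)).filter fun v => ¬ ∃ s ∈ S, (s, v) ∈ A) ∪ D, ?_, ?_⟩
    · have e1 := card_union_le (S ∪ (univ \ (S ∪ R)).filter fun v => ¬ ∃ s ∈ S, (s, v) ∈ A) D
      have e2 := card_union_le S ((univ \ (S ∪ R)).filter fun v => ¬ ∃ s ∈ S, (s, v) ∈ A)
      omega
    · intro v hv
      rw [mem_union, mem_union, not_or, not_or] at hv
      by_cases hR : v ∈ R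
      · obtain ⟨u, hu, h⟩ := c2 v hR hv.2
        exact ⟨u, mem_union_right _ hu, h⟩
      · have : ∃ s ∈ S, (s, v) ∈ A := by
          by_contra c
          refine hv.1.2 (mem_filter.2 ⟨mem_sdiff.2 ⟨mem_univ _, fun e => ?_⟩, c⟩)
          rcases mem_union.1 e with e | e
          · exact hv.1.1 e
          · exact hR e
        obtain ⟨s, hs, h⟩ := this
        exact ⟨s, mem_union_left _ (mem_union_left _ hs), h⟩

end Pool.Agent.OG
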